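import Pool.Agent.Q296.CT.Ratio

/-! The asymptotics along `n = 81 m⁴`, `d = 27 m³`. -/

set_option autoImplicit false
set_option linter.unusedSectionVars false

namespace Pool.Agent.Q296.CT

open Finset Filter Topology

lemma q_bounds {x Q p : ℝ} (hx : 3 ≤ x)
    (hQ : Q = (x - 1) ^ 2 * (4 * x ^ 2 - x + 1) / ((2 * x - 1) ^ 2 * (x ^ 2 - x + 1)))
    (hp : p = (4 * x + 3) / (4 * x + 4)) :
    1 / 2 ≤ Q ∧ 1 / (4 * x) ≤ 1 - Q ∧ |Q - p| ≤ 5 / x ^ 2 := by
  have h1 : 0 < 2 * x - 1 := by linarith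
  have h2 : 0 < x ^ 2 - x + 1 := by nlinarith
  have hden : 0 < (2 * x - 1) ^ 2 * (x ^ 2 - x + 1) := by positivity
  have hx0 : 0 < x := by linarith
  have hx2 : 9 ≤ x ^ 2 := by nlinarith
  have hx3 : 0 < x ^ 3 := by positivity
  have e1 : 1 - Q = x * (x ^ 2 + 2 * x - 2) / ((2 * x - 1) ^ 2 * (x ^ 2 - x + 1)) := by
    rw [hQ, eq_div_iff hden.ne', sub_mul, div_mul_cancel₀ _ hden.ne']
    ring
  refine ⟨?_, ?_, ?_⟩
  · rw [hQ, le_div_iff₀ hden]
    nlinarith [mul_nonneg hx3.le (by linarith : 0 ≤ 2 * x - 5)]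
  · rw [e1, div_le_div_iff₀ (by positivity) hden]
    nlinarith [mul_nonneg (sq_nonneg x) (by linarith : 0 ≤ x - 3)]
  · have e2 : Q - p = -((20 * x ^ 3 - 9 * x ^ 2 - 3 * x - 1) /
        ((4 * x + 4) * ((2 * x - 1) ^ 2 * (x ^ 2 - x + 1)))) := by
      have : p - Q = (20 * x ^ 3 - 9 * x ^ 2 - 3 * x - 1) /
        ((4 * x + 4) * ((2 * x - 1) ^ 2 * (x ^ 2 - x + 1))) := by
        have h4 : (4 * x + 4) ≠ 0 := by positivity
        rw [hp, hQ, div_sub_div _ _ h4 hden.ne']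
        congr 1
        ring
      linarith
    rw [e2, abs_neg, abs_of_nonneg]
    · rw [div_le_div_iff₀ (by positivity) (by positivity)]
      have h5 : x ^ 4 ≤ (2 * x - 1) ^ 2 * (x ^ 2 - x + 1) := by
        nlinarith [mul_nonneg hx3.le (by linarith : 0 ≤ 3 * x - 8)]
      have h6 : (20 * x ^ 3 - 9 * x ^ 2 - 3 * x - 1) * x ^ 2 ≤ 20 * x ^ 5 := by
        nlinarith [mul_nonneg (sq_nonneg x) (sq_nonneg x), mul_nonneg (sq_nonneg x) hx0.le,
          sq_nonneg x]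
      have h7 : 20 * x ^ 5 ≤ 5 * ((4 * x + 4) * ((2 * x - 1) ^ 2 * (x ^ 2 - x + 1))) := by
        calc 20 * x ^ 5 = 5 * ((4 * x) * x ^ 4) := by ring
          _ ≤ 5 * ((4 * x + 4) * ((2 * x - 1) ^ 2 * (x ^ 2 - x + 1))) := by
              gcongr
              linarith
      linarith
    · apply div_nonneg _ (by positivity)
      nlinarith [mul_nonneg hx0.le hx0.le, mul_nonneg (sq_nonneg x) (by linarith : 0 ≤ x - 3)]

lemma kl_bound {x Q p : ℝ} (hx : 3 ≤ x)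
    (hQ : Q = (x - 1) ^ 2 * (4 * x ^ 2 - x + 1) / ((2 * x - 1) ^ 2 * (x ^ 2 - x + 1)))
    (hp : p = (4 * x + 3) / (4 * x + 4)) :
    (2916 * x ^ 6 * (x + 1)) * (Q - p) ^ 2 / (Q * (1 - Q)) ≤ 1166400 * x ^ 4 := by
  obtain ⟨h1, h2, h3⟩ := q_bounds hx hQ hp
  have hx0 : 0 < x := by linarith
  have hQ1 : 0 < 1 - Q := lt_of_lt_of_le (by positivity) h2
  have hQQ : 1 / (8 * x) ≤ Q * (1 - Q) := by
    calc 1 / (8 * x) = 1 / 2 * (1 / (4 * x)) := by ring
      _ ≤ Q * (1 - Q) := by gcongr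
  have hpos : 0 < Q * (1 - Q) := lt_of_lt_of_le (by positivity) hQQ
  rw [div_le_iff₀ hpos]
  have h4 : (Q - p) ^ 2 ≤ (5 / x ^ 2) ^ 2 := by
    rw [← sq_abs]; gcongr
  calc (2916 * x ^ 6 * (x + 1)) * (Q - p) ^ 2 ≤ (2916 * x ^ 6 * (x + 1)) * (5 / x ^ 2) ^ 2 := by
        gcongr
    _ = 72900 * x ^ 2 * (x + 1) := by field_simp; ring
    _ ≤ 145800 * x ^ 3 := by
        have h9 : 0 ≤ x ^ 2 * (x - 3) := mul_nonneg (sq_nonneg x) (by linarith)
        have h10 : 0 ≤ x ^ 2 := sq_nonneg x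
        nlinarith
    _ = 1166400 * x ^ 4 * (1 / (8 * x)) := by field_simp; ring
    _ ≤ 1166400 * x ^ 4 * (Q * (1 - Q)) := by gcongr

lemma inv_one_sub_le {y : ℝ} (h0 : 0 ≤ y) (h1 : y ≤ 1 / 2) :
    1 / (1 - y) ≤ Real.exp (y + y ^ 2) := by
  have h2 : 0 < 1 - y := by linarith
  rw [div_le_iff₀ h2]
  have h3 : 1 + (y + y ^ 2) + (y + y ^ 2) ^ 2 / 2 ≤ Real.exp (y + y ^ 2) :=
    Real.quadratic_le_exp_of_nonneg (by positivity)
  have h4 : 1 ≤ (1 + (y + y ^ 2) + (y + y ^ 2) ^ 2 / 2) * (1 - y) := by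
    have : (1 + (y + y ^ 2) + (y + y ^ 2) ^ 2 / 2) * (1 - y) - 1 =
        y ^ 2 * (1 - y * (1 + y + y ^ 2)) / 2 + 0 := by ring
    have h5 : 0 ≤ 1 - y * (1 + y + y ^ 2) := by nlinarith [sq_nonneg y, mul_nonneg h0 h0]
    nlinarith [mul_nonneg (sq_nonneg y) h5]
  calc (1 : ℝ) ≤ (1 + (y + y ^ 2) + (y + y ^ 2) ^ 2 / 2) * (1 - y) := h4
    _ ≤ _ := by gcongr

lemma exp_le_one_add {y : ℝ} (h0 : 0 ≤ y) :
    Real.exp (y - y ^ 2 / 2) ≤ 1 + y := by
  have h2 : y - y ^ 2 / 2 ≤ Real.log (1 + y) := by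
    refine le_trans ?_ (Real.le_log_one_add_of_nonneg h0)
    rw [le_div_iff₀ (by linarith)]
    nlinarith [mul_nonneg h0 (mul_nonneg h0 h0)]
  calc Real.exp (y - y ^ 2 / 2) ≤ Real.exp (Real.log (1 + y)) := Real.exp_le_exp.2 h2
    _ = 1 + y := Real.exp_log (by linarith)

variable {D M : Type*} [Fintype D] [DecidableEq D] [Fintype M] [DecidableEq M]

/-- the total loss -/
noncomputable def loss (m : ℕ) : ℝ :=
  (10 ^ 4 * (m : ℝ) ^ 8) ^ (8 + 4 * (27 * m ^ 3) + 4 * (81 * m ^ 4)) *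
    Real.exp (1166400 * (m : ℝ) ^ 4)

lemma ls_le {N k e : ℕ} {L : ℝ} (h : ((N + k : ℕ) : ℝ) + 1 ≤ L) : ls N k e ≤ L ^ (2 + e) := by
  have h0 : (N : ℝ) + 1 ≤ L := by
    have : (N : ℝ) + 1 ≤ ((N + k : ℕ) : ℝ) + 1 := by
      push_cast
      have : (0 : ℝ) ≤ k := Nat.cast_nonneg _
      linarith
    linarith
  unfold ls
  rw [pow_add]
  gcongr

lemma one_m {k m : ℕ} (hk : 2 ≤ k) (hm : m = k + 1) (hD : Fintype.card D = 27 * m ^ 3)
    (hM : Fintype.card M = 81 * m ^ 4) (J : Finset D) :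
    ((bad D M (189 * m ^ 4) (27 * m ^ 4) J (27 * m ^ 3 * (3 * k + 1))).card : ℝ) ≤
      ((Full D M (189 * m ^ 4) (27 * m ^ 4)).card : ℝ) * loss m *
        Real.exp (-(3 / 2 * (m : ℝ) ^ 2 * J.card)) := by
  classical
  have hm3 : 3 ≤ m := by omega
  obtain ⟨x, hx⟩ : ∃ x : ℝ, x = m := ⟨_, rfl⟩
  have hx3 : 3 ≤ x := by rw [hx]; exact_mod_cast hm3
  have hkx : (k : ℝ) = x - 1 := by rw [hx, hm]; push_cast; ring
  have hx0 : 0 < x := by linarith
  have : Nonempty D := by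
    rw [← Fintype.card_pos_iff, hD]; positivity
  have : Nonempty M := by
    rw [← Fintype.card_pos_iff, hM]; positivity
  have h1 : 0 < 2 * x - 1 := by linarith
  have h2 : 0 < x ^ 2 - x + 1 := by nlinarith
  have h3 : 0 < 4 * x ^ 2 - x + 1 := by nlinarith
  have h1' : 2 * x - 1 ≠ 0 := h1.ne'
  have h3' : 4 * x ^ 2 - x + 1 ≠ 0 := h3.ne'
  obtain ⟨w, hw⟩ : ∃ w : ℝ, w = (x ^ 2 - x + 1) / (4 * x ^ 2 - x + 1) := ⟨_, rfl⟩
  have hw0 : 0 < w := by rw [hw]; positivity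
  have hw1 : w < 1 := by
    rw [hw, div_lt_one h3]; nlinarith
  obtain ⟨v, hv⟩ : ∃ v : ℝ, v = Real.sqrt w := ⟨_, rfl⟩
  have hv0 : 0 < v := by rw [hv]; exact Real.sqrt_pos.2 hw0
  have hv2 : v ^ 2 = w := by rw [hv]; exact Real.sq_sqrt hw0.le
  obtain ⟨u, hu⟩ : ∃ u : ℝ, u = ((x - 1) / (2 * x - 1)) / v := ⟨_, rfl⟩
  have hu0 : 0 < u := by
    rw [hu]
    have : 0 < x - 1 := by linarith
    positivity
  have huv : u * v = (x - 1) / (2 * x - 1) := by
    rw [hu, div_mul_cancel₀ _ hv0.ne']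
  have hu2 : u ^ 2 = (x - 1) ^ 2 * (4 * x ^ 2 - x + 1) / ((2 * x - 1) ^ 2 * (x ^ 2 - x + 1)) := by
    rw [hu, div_pow, hv2, hw, div_pow]
    field_simp
  obtain ⟨p, hp⟩ : ∃ p : ℝ, p = (4 * x + 3) / (4 * x + 4) := ⟨_, rfl⟩
  obtain ⟨q1, q2, -⟩ := q_bounds hx3 hu2 hp
  have kl := kl_bound hx3 hu2 hp
  have hu1 : u ^ 2 < 1 := by
    have : 0 < 1 / (4 * x) := by positivity
    linarith
  obtain ⟨θ, hθ⟩ : ∃ θ : ℝ, θ = 1 + 1 / (9 * x) := ⟨_, rfl⟩
  have hθ1 : 1 ≤ θ := by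
    rw [hθ]
    have : 0 < 1 / (9 * x) := by positivity
    linarith
  have hθ2 : θ ≤ 1 + 1 / 27 := by
    rw [hθ]
    have : 1 / (9 * x) ≤ 1 / 27 := by
      apply one_div_le_one_div_of_le (by norm_num)
      linarith
    linarith
  have huvh : u * v ≤ 1 / 2 := by
    rw [huv, div_le_div_iff₀ h1 (by norm_num)]; linarith
  have huv0 : 0 < u * v := mul_pos hu0 hv0
  have huvθ : u * v * θ < 1 := by nlinarith
  have hp0 : 0 < p := by rw [hp]; positivity
  have hp1 : p < 1 := by rw [hp, div_lt_one (by positivity)]; linarith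
  have hmx : (m : ℝ) = x := hx.symm
  have R := ratio (D := D) (M := M) (b := 27 * m ^ 3 * (4 * m + 3)) (r := 81 * m ^ 3 * k)
    (s := 27 * m ^ 2 * k) (a := 27 * m ^ 2 * (k ^ 2 + k + 1)) (h := 189 * m ^ 4)
    (l := 27 * m ^ 4) (s0 := 27 * m ^ 3 * (3 * k + 1))
    (by rw [hm]; ring) (by rw [hm]; ring) (by rw [hD, hM]; ring) hu0 hu1 hv0
    (by rw [hv2]; exact hw1) hθ1 huvθ hp0 hp1
    (by
      rw [hD, hp]
      push_cast
      rw [hmx]
      field_simp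
      ring)
    (by
      rw [hD, hM, huv]
      push_cast
      rw [hmx, hkx, div_mul_eq_mul_div, div_eq_iff h1']
      ring)
    (by
      rw [hM, hv2, hw]
      push_cast
      rw [hmx, hkx, div_mul_eq_mul_div, div_eq_iff h3']
      ring) J
  -- bounding the loss
  have hL : ls (Fintype.card D * (27 * m ^ 3 * (4 * m + 3))) (Fintype.card D * Fintype.card D)
        (Fintype.card D + Fintype.card D) *
      Real.exp (((Fintype.card D * (27 * m ^ 3 * (4 * m + 3)) +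
        Fintype.card D * Fintype.card D : ℕ) : ℝ) * (u ^ 2 - p) ^ 2 / (u ^ 2 * (1 - u ^ 2))) *
      ls (Fintype.card D * (81 * m ^ 3 * k)) (Fintype.card D * Fintype.card M)
        (Fintype.card D + Fintype.card M) *
      ls (Fintype.card D * (81 * m ^ 3 * k)) (Fintype.card M * Fintype.card D)
        (Fintype.card M + Fintype.card D) *
      ls (Fintype.card M * (27 * m ^ 2 * (k ^ 2 + k + 1))) (Fintype.card M * Fintype.card M)
        (Fintype.card M + Fintype.card M) ≤ loss m := by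
    obtain ⟨L, hLd⟩ : ∃ L : ℝ, L = 10 ^ 4 * (m : ℝ) ^ 8 := ⟨_, rfl⟩
    have hx1 : 1 ≤ x := by linarith
    have e6 : x ^ 6 ≤ x ^ 8 := pow_le_pow_right₀ hx1 (by norm_num)
    have e7 : x ^ 7 ≤ x ^ 8 := pow_le_pow_right₀ hx1 (by norm_num)
    have e8 : 1 ≤ x ^ 8 := one_le_pow₀ hx1
    have e67 : x ^ 6 ≤ x ^ 7 := pow_le_pow_right₀ hx1 (by norm_num)
    have e60 : 0 ≤ x ^ 6 := by positivity
    have l1 : ((Fintype.card D * (27 * m ^ 3 * (4 * m + 3)) +
        Fintype.card D * Fintype.card D : ℕ) : ℝ) + 1 ≤ L := by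
      rw [hD, hLd]; push_cast; rw [hmx]
      have : 27 * x ^ 3 * (27 * x ^ 3 * (4 * x + 3)) + 27 * x ^ 3 * (27 * x ^ 3) + 1 =
        2916 * x ^ 7 + 2916 * x ^ 6 + 1 := by ring
      rw [this]; linarith
    have l2 : ((Fintype.card D * (81 * m ^ 3 * k) +
        Fintype.card D * Fintype.card M : ℕ) : ℝ) + 1 ≤ L := by
      rw [hD, hM, hLd]; push_cast; rw [hmx, hkx]
      have : 27 * x ^ 3 * (81 * x ^ 3 * (x - 1)) + 27 * x ^ 3 * (81 * x ^ 4) + 1 =
        4374 * x ^ 7 - 2187 * x ^ 6 + 1 := by ring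
      rw [this]; linarith
    have l3 : ((Fintype.card D * (81 * m ^ 3 * k) +
        Fintype.card M * Fintype.card D : ℕ) : ℝ) + 1 ≤ L := by
      rw [mul_comm (Fintype.card M) (Fintype.card D)]; exact l2
    have l4 : ((Fintype.card M * (27 * m ^ 2 * (k ^ 2 + k + 1)) +
        Fintype.card M * Fintype.card M : ℕ) : ℝ) + 1 ≤ L := by
      rw [hM, hLd]; push_cast; rw [hmx, hkx]
      have : 81 * x ^ 4 * (27 * x ^ 2 * ((x - 1) ^ 2 + (x - 1) + 1)) + 81 * x ^ 4 * (81 * x ^ 4)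
        + 1 = 8748 * x ^ 8 - 2187 * x ^ 7 + 2187 * x ^ 6 + 1 := by ring
      rw [this]; linarith
    have m1 := ls_le (e := Fintype.card D + Fintype.card D) l1
    have m2 := ls_le (e := Fintype.card D + Fintype.card M) l2
    have m3 := ls_le (e := Fintype.card M + Fintype.card D) l3
    have m4 := ls_le (e := Fintype.card M + Fintype.card M) l4
    have ex : Real.exp (((Fintype.card D * (27 * m ^ 3 * (4 * m + 3)) +
        Fintype.card D * Fintype.card D : ℕ) : ℝ) * (u ^ 2 - p) ^ 2 / (u ^ 2 * (1 - u ^ 2))) ≤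
        Real.exp (1166400 * (m : ℝ) ^ 4) := by
      apply Real.exp_le_exp.2
      rw [hmx]
      refine le_trans (le_of_eq ?_) kl
      congr 2
      rw [hD]; push_cast; rw [hmx]; ring
    have hL0 : 0 ≤ L := by rw [hLd]; positivity
    have g0 : ∀ N k e : ℕ, 0 ≤ ls N k e := by intro N k e; unfold ls; positivity
    calc _ ≤ L ^ (2 + (Fintype.card D + Fintype.card D)) * Real.exp (1166400 * (m : ℝ) ^ 4) *
        L ^ (2 + (Fintype.card D + Fintype.card M)) * L ^ (2 + (Fintype.card M + Fintype.card D)) *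
        L ^ (2 + (Fintype.card M + Fintype.card M)) := by
          have := g0 (Fintype.card D * (27 * m ^ 3 * (4 * m + 3))) (Fintype.card D * Fintype.card D)
            (Fintype.card D + Fintype.card D)
          have := g0 (Fintype.card D * (81 * m ^ 3 * k)) (Fintype.card D * Fintype.card M)
            (Fintype.card D + Fintype.card M)
          have := g0 (Fintype.card D * (81 * m ^ 3 * k)) (Fintype.card M * Fintype.card D)
            (Fintype.card M + Fintype.card D)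
          have := g0 (Fintype.card M * (27 * m ^ 2 * (k ^ 2 + k + 1)))
            (Fintype.card M * Fintype.card M) (Fintype.card M + Fintype.card M)
          gcongr
      _ = loss m := by
          unfold loss
          rw [← hLd, hD, hM]
          have : L ^ (8 + 4 * (27 * m ^ 3) + 4 * (81 * m ^ 4)) =
            L ^ (2 + (27 * m ^ 3 + 27 * m ^ 3)) * L ^ (2 + (27 * m ^ 3 + 81 * m ^ 4)) *
            L ^ (2 + (81 * m ^ 4 + 27 * m ^ 3)) * L ^ (2 + (81 * m ^ 4 + 81 * m ^ 4)) := by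
            rw [← pow_add, ← pow_add, ← pow_add]
            congr 1
            ring
          rw [this]; ring
  obtain ⟨F, hF⟩ : ∃ F : ℝ, F = ((Full D M (189 * m ^ 4) (27 * m ^ 4)).card : ℝ) := ⟨_, rfl⟩
  have hF0 : 0 ≤ F := by rw [hF]; exact Nat.cast_nonneg _
  obtain ⟨j, hj⟩ : ∃ j : ℕ, j = J.card := ⟨_, rfl⟩
  obtain ⟨Bc, hBc⟩ : ∃ B : ℝ, B =
    ((bad D M (189 * m ^ 4) (27 * m ^ 4) J (27 * m ^ 3 * (3 * k + 1))).card : ℝ) := ⟨_, rfl⟩
  rw [← hF, ← hj, ← hBc] at R ⊢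
  -- the exponential factors
  obtain ⟨y, hy⟩ : ∃ y : ℝ, y = (x - 1) / x * (1 / (9 * x)) := ⟨_, rfl⟩
  have hy0 : 0 ≤ y := by
    rw [hy]
    have : 0 ≤ x - 1 := by linarith
    positivity
  have hyle : y ≤ 1 / (9 * x) := by
    rw [hy]
    have h5 : (x - 1) / x ≤ 1 := by rw [div_le_one hx0]; linarith
    have h6 : 0 ≤ 1 / (9 * x) := by positivity
    nlinarith
  have h27 : 1 / (9 * x) ≤ 1 / 27 := by
    apply one_div_le_one_div_of_le (by norm_num)
    linarith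
  have f1 : (1 - u * v) / (1 - u * v * θ) = 1 / (1 - y) := by
    have n1 : 1 - u * v ≠ 0 := by linarith
    have n2 : 1 - u * v * θ ≠ 0 := by linarith
    have n3 : 1 - y ≠ 0 := by linarith
    have c1 : 1 - u * v = x / (2 * x - 1) := by
      rw [huv, eq_div_iff h1', sub_mul, div_mul_cancel₀ _ h1']; ring
    have c2 : (1 - u * v) * y = u * v * (1 / (9 * x)) := by
      rw [c1, huv, hy]
      have : x / (2 * x - 1) * ((x - 1) / x * (1 / (9 * x))) =
        (x / x) * ((x - 1) / (2 * x - 1) * (1 / (9 * x))) := by ring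
      rw [this, div_self hx0.ne', one_mul]
    rw [div_eq_div_iff n2 n3, hθ]
    linear_combination (-1) * c2
  have f2 : 1 / (1 - y) ≤ Real.exp (y + y ^ 2) := inv_one_sub_le hy0 (by linarith)
  have f3 : Real.exp (1 / (9 * x) - (1 / (9 * x)) ^ 2 / 2) ≤ θ := by
    rw [hθ]; exact exp_le_one_add (by positivity)
  have f4 : Real.exp ((27 * x ^ 3 * (3 * (x - 1) + 1)) * j *
      (1 / (9 * x) - (1 / (9 * x)) ^ 2 / 2)) ≤ θ ^ (27 * m ^ 3 * (3 * k + 1) * j) := by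
    calc Real.exp ((27 * x ^ 3 * (3 * (x - 1) + 1)) * j *
      (1 / (9 * x) - (1 / (9 * x)) ^ 2 / 2)) =
        Real.exp (1 / (9 * x) - (1 / (9 * x)) ^ 2 / 2) ^ (27 * m ^ 3 * (3 * k + 1) * j) := by
          rw [← Real.exp_nat_mul]
          congr 1
          push_cast
          rw [hmx, hkx]
      _ ≤ _ := by gcongr
  have f5 : (1 / (1 - y)) ^ (Fintype.card M * j) ≤ Real.exp ((81 * x ^ 4) * j * (y + y ^ 2)) := by
    calc (1 / (1 - y)) ^ (Fintype.card M * j) ≤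
        Real.exp (y + y ^ 2) ^ (Fintype.card M * j) := by
          have : 0 ≤ 1 / (1 - y) := by
            apply div_nonneg zero_le_one; linarith
          gcongr
      _ = _ := by
          rw [← Real.exp_nat_mul, hM]
          congr 1
          push_cast
          rw [hmx]
  have f6 : (81 * x ^ 4) * (y + y ^ 2) ≤ 9 * x ^ 3 - 8 * x ^ 2 := by
    have : (81 * x ^ 4) * y = 9 * x ^ 3 - 9 * x ^ 2 := by
      rw [hy]; field_simp; ring
    have h7 : (81 * x ^ 4) * y ^ 2 ≤ (81 * x ^ 4) * (1 / (9 * x)) ^ 2 := by gcongr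
    have h8 : (81 * x ^ 4) * (1 / (9 * x)) ^ 2 = x ^ 2 := by field_simp; ring
    nlinarith
  have f7 : (27 * x ^ 3 * (3 * (x - 1) + 1)) * (1 / (9 * x) - (1 / (9 * x)) ^ 2 / 2) =
      9 * x ^ 3 - 13 / 2 * x ^ 2 + x / 3 := by
    field_simp; ring
  rw [f1] at R
  have hj0 : (0 : ℝ) ≤ j := Nat.cast_nonneg _
  have R2 : Bc * Real.exp ((27 * x ^ 3 * (3 * (x - 1) + 1)) * j *
      (1 / (9 * x) - (1 / (9 * x)) ^ 2 / 2)) ≤
      F * loss m * Real.exp ((81 * x ^ 4) * j * (y + y ^ 2)) := by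
    have hBc0 : 0 ≤ Bc := by rw [hBc]; exact Nat.cast_nonneg _
    have : 0 ≤ (1 / (1 - y)) ^ (Fintype.card M * j) := by
      apply pow_nonneg
      apply div_nonneg zero_le_one
      linarith
    have hloss : 0 ≤ loss m := by unfold loss; positivity
    calc Bc * Real.exp ((27 * x ^ 3 * (3 * (x - 1) + 1)) * j *
      (1 / (9 * x) - (1 / (9 * x)) ^ 2 / 2)) ≤ Bc * θ ^ (27 * m ^ 3 * (3 * k + 1) * j) := by
          gcongr
      _ ≤ _ := R
      _ ≤ F * loss m * Real.exp ((81 * x ^ 4) * j * (y + y ^ 2)) := by gcongr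
  rw [hmx]
  have e0 := Real.exp_pos ((27 * x ^ 3 * (3 * (x - 1) + 1)) * j *
      (1 / (9 * x) - (1 / (9 * x)) ^ 2 / 2))
  refine le_of_mul_le_mul_right ?_ e0
  refine le_trans R2 ?_
  rw [mul_assoc (F * loss m), ← Real.exp_add]
  have hFl : 0 ≤ F * loss m := mul_nonneg hF0 (by unfold loss; positivity)
  apply mul_le_mul_of_nonneg_left _ hFl
  apply Real.exp_le_exp.2
  have g1 : (81 * x ^ 4) * j * (y + y ^ 2) ≤ j * (9 * x ^ 3 - 8 * x ^ 2) := by
    calc (81 * x ^ 4) * j * (y + y ^ 2) = j * ((81 * x ^ 4) * (y + y ^ 2)) := by ring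
      _ ≤ _ := by gcongr
  have g2 : (27 * x ^ 3 * (3 * (x - 1) + 1)) * j * (1 / (9 * x) - (1 / (9 * x)) ^ 2 / 2) =
      j * (9 * x ^ 3 - 13 / 2 * x ^ 2 + x / 3) := by
    rw [← f7]; ring
  rw [g2]
  nlinarith [mul_nonneg hj0 hx0.le]

end Pool.Agent.Q296.CT
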