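import Pool.Agent.Q296.CT.Count

/-! Tables with two kinds of margins. -/

set_option autoImplicit false
set_option linter.unusedSectionVars false

namespace Pool.Agent.Q296.CT

open Finset

variable {D M : Type*} [Fintype D] [DecidableEq D] [Fintype M] [DecidableEq M]

/-- margins -/
def marg (h l : ℕ) : D ⊕ M → ℕ := Sum.elim (fun _ => h) (fun _ => l)

/-- all tables -/
def Full (D M : Type*) [Fintype D] [DecidableEq D] [Fintype M] [DecidableEq M] (h l : ℕ) :
    Finset (D ⊕ M → D ⊕ M → ℕ) := tab (marg h l) (marg h l)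

lemma mem_Full {h l : ℕ} {X : D ⊕ M → D ⊕ M → ℕ} :
    X ∈ Full D M h l ↔ (∀ i, ∑ j, X i j = marg h l i) ∧ ∀ j, ∑ i, X i j = marg h l j := mem_tab

/-- assembling four blocks -/
lemma asm {b r s a h l : ℕ} (hh : b + r = h) (hl : s + a = l) :
    (tab (fun _ : D => b) (fun _ : D => b)).card * (tab (fun _ : D => r) (fun _ : M => s)).card *
      (tab (fun _ : M => s) (fun _ : D => r)).card * (tab (fun _ : M => a) (fun _ : M => a)).card ≤
      (Full D M h l).card := by
  classical
  rw [← Finset.card_product, ← Finset.card_product, ← Finset.card_product]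
  apply Finset.card_le_card_of_injOn (fun p => fun i j => Sum.elim
    (fun i' => Sum.elim (fun j' => p.1.1.1 i' j') (fun j' => p.1.1.2 i' j') j)
    (fun i' => Sum.elim (fun j' => p.1.2 i' j') (fun j' => p.2 i' j') j) i)
  · rintro ⟨⟨⟨X1, X2⟩, X3⟩, X4⟩ hX
    simp only [mem_coe, mem_product, mem_tab] at hX
    obtain ⟨⟨⟨⟨a1, a2⟩, b1, b2⟩, c1, c2⟩, d1, d2⟩ := hX
    rw [mem_coe, mem_Full]
    refine ⟨fun i => ?_, fun j => ?_⟩
    · rw [Fintype.sum_sum_type]
      rcases i with i | i
      · simp only [Sum.elim_inl, Sum.elim_inr, marg]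
        rw [a1, b1]; exact hh
      · simp only [Sum.elim_inl, Sum.elim_inr, marg]
        rw [c1, d1]; exact hl
    · rw [Fintype.sum_sum_type]
      rcases j with j | j
      · simp only [Sum.elim_inl, Sum.elim_inr, marg]
        rw [a2, c2]; exact hh
      · simp only [Sum.elim_inl, Sum.elim_inr, marg]
        rw [b2, d2]; exact hl
  · rintro ⟨⟨⟨X1, X2⟩, X3⟩, X4⟩ _ ⟨⟨⟨Y1, Y2⟩, Y3⟩, Y4⟩ _ h
    simp only at h
    simp only [Prod.mk.injEq]
    refine ⟨⟨⟨?_, ?_⟩, ?_⟩, ?_⟩
    · funext i j; exact congrFun (congrFun h (Sum.inl i)) (Sum.inl j)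
    · funext i j; exact congrFun (congrFun h (Sum.inl i)) (Sum.inr j)
    · funext i j; exact congrFun (congrFun h (Sum.inr i)) (Sum.inl j)
    · funext i j; exact congrFun (congrFun h (Sum.inr i)) (Sum.inr j)

/-- product weights are constant on the tables -/
lemma weight {ι : Type*} [Fintype ι] [DecidableEq ι] {r c : ι → ℕ} (x : ι → ℝ) {X : ι → ι → ℕ}
    (hX : X ∈ tab r c) :
    ∏ i, ∏ j, (x i * x j) ^ X i j = (∏ i, x i ^ r i) * ∏ j, x j ^ c j := by
  rw [mem_tab] at hX
  have h1 : ∏ i, ∏ j, (x i * x j) ^ X i j = (∏ i, ∏ j, x i ^ X i j) * ∏ i, ∏ j, x j ^ X i j := by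
    rw [← Finset.prod_mul_distrib]
    apply Finset.prod_congr rfl
    intro i _
    rw [← Finset.prod_mul_distrib]
    apply Finset.prod_congr rfl
    intro j _
    rw [mul_pow]
  rw [h1]
  congr 1
  · apply Finset.prod_congr rfl
    intro i _
    rw [Finset.prod_pow_eq_pow_sum, hX.1]
  · rw [Finset.prod_comm]
    apply Finset.prod_congr rfl
    intro j _
    rw [Finset.prod_pow_eq_pow_sum, hX.2]

/-- tables whose first `J` rows have a large light part -/
def bad (D M : Type*) [Fintype D] [DecidableEq D] [Fintype M] [DecidableEq M] (h l : ℕ)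
    (J : Finset D) (s0 : ℕ) : Finset (D ⊕ M → D ⊕ M → ℕ) :=
  (Full D M h l).filter (fun X => ∀ i ∈ J, s0 ≤ ∑ k : M, X (Sum.inl i) (Sum.inr k))

lemma bad_le {h l : ℕ} (J : Finset D) (s0 : ℕ) {u v θ : ℝ} (hu0 : 0 < u) (hu1 : u ^ 2 < 1)
    (hv0 : 0 < v) (hv1 : v ^ 2 < 1) (hθ : 1 ≤ θ) (huv : u * v * θ < 1) :
    ((bad D M h l J s0).card : ℝ) * (θ ^ (s0 * J.card) *
      ((u ^ 2) ^ (h * Fintype.card D) * (v ^ 2) ^ (l * Fintype.card M))) *
      ((1 - u ^ 2) ^ (Fintype.card D * Fintype.card D) *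
        ((1 - u * v) ^ (Fintype.card D * Fintype.card M) *
          (1 - u * v) ^ (Fintype.card M * Fintype.card D)) *
        (1 - v ^ 2) ^ (Fintype.card M * Fintype.card M)) ≤
      ((1 - u * v) / (1 - u * v * θ)) ^ (Fintype.card M * J.card) := by
  classical
  obtain ⟨x, hx⟩ : ∃ x : D ⊕ M → ℝ, x = Sum.elim (fun _ => u) (fun _ => v) := ⟨_, rfl⟩
  have x1 : ∀ i, x (Sum.inl i) = u := by intro i; rw [hx]; rfl
  have x2 : ∀ i, x (Sum.inr i) = v := by intro i; rw [hx]; rfl
  obtain ⟨τ, hτ⟩ : ∃ τ : D → ℝ, τ = fun i => if i ∈ J then θ else 1 := ⟨_, rfl⟩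
  have t1 : ∀ i, 1 ≤ τ i := by
    intro i; rw [hτ]; simp only; split_ifs <;> linarith
  have t2 : ∀ i, τ i ≤ θ := by
    intro i; rw [hτ]; simp only; split_ifs <;> linarith
  obtain ⟨g, hg⟩ : ∃ g : D ⊕ M → D ⊕ M → ℝ, g = fun i j => x i * x j *
    Sum.elim (fun i' => Sum.elim (fun _ => 1) (fun _ => τ i') j) (fun _ => 1) i := ⟨_, rfl⟩
  have g11 : ∀ i j, g (Sum.inl i) (Sum.inl j) = u ^ 2 := by
    intro i j; rw [hg]; simp only [x1, Sum.elim_inl]; ring
  have g12 : ∀ i j, g (Sum.inl i) (Sum.inr j) = u * v * τ i := by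
    intro i j; rw [hg]; simp only [x1, x2, Sum.elim_inl, Sum.elim_inr]
  have g21 : ∀ i j, g (Sum.inr i) (Sum.inl j) = u * v := by
    intro i j; rw [hg]; simp only [x1, x2, Sum.elim_inr]; ring
  have g22 : ∀ i j, g (Sum.inr i) (Sum.inr j) = v ^ 2 := by
    intro i j; rw [hg]; simp only [x2, Sum.elim_inr]; ring
  have huv0 : 0 < u * v := mul_pos hu0 hv0
  have huv1 : u * v < 1 := by nlinarith
  have hg0 : ∀ i j, 0 ≤ g i j := by
    intro i j
    rcases i with i | i <;> rcases j with j | j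
    · rw [g11]; positivity
    · rw [g12]; have := t1 i; positivity
    · rw [g21]; positivity
    · rw [g22]; positivity
  have hg1 : ∀ i j, g i j < 1 := by
    intro i j
    rcases i with i | i <;> rcases j with j | j
    · rw [g11]; exact hu1
    · rw [g12]
      calc u * v * τ i ≤ u * v * θ := mul_le_mul_of_nonneg_left (t2 i) huv0.le
        _ < 1 := huv
    · rw [g21]; exact huv1
    · rw [g22]; exact hv1
  -- lower bound for each weight
  have hw : ∀ X ∈ bad D M h l J s0, θ ^ (s0 * J.card) *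
      ((u ^ 2) ^ (h * Fintype.card D) * (v ^ 2) ^ (l * Fintype.card M)) ≤
      ∏ i, ∏ j, g i j ^ X i j := by
    intro X hX
    unfold bad at hX
    rw [mem_filter] at hX
    have e1 : ∏ i, ∏ j, g i j ^ X i j = (∏ i, ∏ j, (x i * x j) ^ X i j) *
        ∏ i : D, ∏ k : M, τ i ^ X (Sum.inl i) (Sum.inr k) := by
      have : ∏ i : D, ∏ k : M, τ i ^ X (Sum.inl i) (Sum.inr k) =
          ∏ i : D ⊕ M, ∏ j : D ⊕ M, (Sum.elim (fun i' => Sum.elim (fun _ => (1 : ℝ))
            (fun _ => τ i') j) (fun _ => 1) i) ^ X i j := by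
        rw [Fintype.prod_sum_type]
        have e2 : ∏ a₂ : M, ∏ j : D ⊕ M, (Sum.elim (fun i' => Sum.elim (fun _ => (1 : ℝ))
            (fun _ => τ i') j) (fun _ => 1) (Sum.inr a₂ : D ⊕ M)) ^ X (Sum.inr a₂) j = 1 := by
          apply Finset.prod_eq_one
          intro i _
          apply Finset.prod_eq_one
          intro j _
          simp
        rw [e2, mul_one]
        apply Finset.prod_congr rfl
        intro i _
        rw [Fintype.prod_sum_type]
        simp
      rw [this, ← Finset.prod_mul_distrib]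
      apply Finset.prod_congr rfl
      intro i _
      rw [← Finset.prod_mul_distrib]
      apply Finset.prod_congr rfl
      intro j _
      rw [hg, ← mul_pow]
    have e2 : ∏ i, ∏ j, (x i * x j) ^ X i j =
        (u ^ 2) ^ (h * Fintype.card D) * (v ^ 2) ^ (l * Fintype.card M) := by
      rw [weight x hX.1, Fintype.prod_sum_type]
      simp only [x1, x2, marg, Sum.elim_inl, Sum.elim_inr, Finset.prod_const, Finset.card_univ]
      ring
    have e3 : θ ^ (s0 * J.card) ≤ ∏ i : D, ∏ k : M, τ i ^ X (Sum.inl i) (Sum.inr k) := by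
      have e4 : ∀ i : D, ∏ k : M, τ i ^ X (Sum.inl i) (Sum.inr k) =
          τ i ^ (∑ k : M, X (Sum.inl i) (Sum.inr k)) := fun i =>
        Finset.prod_pow_eq_pow_sum _ _ _
      simp only [e4]
      calc θ ^ (s0 * J.card) = ∏ i ∈ J, θ ^ s0 := by
            rw [Finset.prod_const, pow_mul]
        _ ≤ ∏ i ∈ J, τ i ^ (∑ k : M, X (Sum.inl i) (Sum.inr k)) := by
            apply Finset.prod_le_prod
            · intro i _; positivity
            · intro i hi
              have : τ i = θ := by rw [hτ]; simp [hi]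
              rw [this]
              exact pow_le_pow_right₀ hθ (hX.2 i hi)
        _ ≤ ∏ i : D, τ i ^ (∑ k : M, X (Sum.inl i) (Sum.inr k)) := by
            rw [← Finset.prod_mul_prod_compl J (fun i => τ i ^ (∑ k : M, X (Sum.inl i) (Sum.inr k)))]
            apply le_mul_of_one_le_right
            · exact Finset.prod_nonneg (fun i _ => by have := t1 i; positivity)
            · calc (1 : ℝ) = ∏ _i ∈ Jᶜ, (1 : ℝ) := by simp
                _ ≤ _ := Finset.prod_le_prod (fun _ _ => zero_le_one)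
                  (fun i _ => one_le_pow₀ (t1 i))
    rw [e1, e2, mul_comm]
    apply mul_le_mul_of_nonneg_left e3
    positivity
  have hsum : ((bad D M h l J s0).card : ℝ) * (θ ^ (s0 * J.card) *
      ((u ^ 2) ^ (h * Fintype.card D) * (v ^ 2) ^ (l * Fintype.card M))) ≤
      ∏ i, ∏ j, (1 - g i j)⁻¹ := by
    refine le_trans ?_ (box_sum g hg0 hg1 (bad D M h l J s0))
    rw [← nsmul_eq_mul]
    exact Finset.card_nsmul_le_sum _ _ _ hw
  -- the product of the normalising factors
  have hprod : ∏ i, ∏ j, (1 - g i j)⁻¹ = ((1 - u ^ 2) ^ (Fintype.card D * Fintype.card D) *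
        ((∏ i : D, (1 - u * v * τ i)) ^ Fintype.card M *
          (1 - u * v) ^ (Fintype.card M * Fintype.card D)) *
        (1 - v ^ 2) ^ (Fintype.card M * Fintype.card M))⁻¹ := by
    rw [Fintype.prod_sum_type]
    have f1 : ∀ i : D, ∏ j : D ⊕ M, (1 - g (Sum.inl i) j)⁻¹ =
        ((1 - u ^ 2) ^ Fintype.card D)⁻¹ * ((1 - u * v * τ i) ^ Fintype.card M)⁻¹ := by
      intro i
      rw [Fintype.prod_sum_type]
      simp only [g11, g12, Finset.prod_const, Finset.card_univ, inv_pow]
    have f2 : ∀ i : M, ∏ j : D ⊕ M, (1 - g (Sum.inr i) j)⁻¹ =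
        ((1 - u * v) ^ Fintype.card D)⁻¹ * ((1 - v ^ 2) ^ Fintype.card M)⁻¹ := by
      intro i
      rw [Fintype.prod_sum_type]
      simp only [g21, g22, Finset.prod_const, Finset.card_univ, inv_pow]
    simp only [f1, f2]
    rw [Finset.prod_mul_distrib, Finset.prod_const, Finset.card_univ, Finset.prod_inv_distrib,
      Finset.prod_pow, Finset.prod_const, Finset.card_univ, mul_pow, inv_pow, inv_pow, inv_pow,
      ← pow_mul, ← pow_mul, ← pow_mul, mul_inv, mul_inv, mul_inv,
      mul_comm (Fintype.card D) (Fintype.card M)]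
    ring
  rw [hprod] at hsum
  have hτprod : ∏ i : D, (1 - u * v * τ i) =
      (1 - u * v * θ) ^ J.card * (1 - u * v) ^ (Fintype.card D - J.card) := by
    rw [← Finset.prod_mul_prod_compl J]
    congr 1
    · rw [← Finset.prod_const]
      apply Finset.prod_congr rfl
      intro i hi
      rw [hτ]; simp [hi]
    · rw [← Finset.card_compl, ← Finset.prod_const]
      apply Finset.prod_congr rfl
      intro i hi
      rw [mem_compl] at hi
      rw [hτ]; simp [hi]
  have hJ : J.card ≤ Fintype.card D := Finset.card_le_univ J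
  have p1 : 0 < 1 - u ^ 2 := by linarith
  have p2 : 0 < 1 - v ^ 2 := by linarith
  have p3 : 0 < 1 - u * v := by linarith
  have p4 : 0 < 1 - u * v * θ := by linarith
  have hratio : ((1 - u * v) / (1 - u * v * θ)) ^ (Fintype.card M * J.card) =
      ((1 - u ^ 2) ^ (Fintype.card D * Fintype.card D) *
        ((1 - u * v) ^ (Fintype.card D * Fintype.card M) *
          (1 - u * v) ^ (Fintype.card M * Fintype.card D)) *
        (1 - v ^ 2) ^ (Fintype.card M * Fintype.card M)) *
      ((1 - u ^ 2) ^ (Fintype.card D * Fintype.card D) *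
        ((∏ i : D, (1 - u * v * τ i)) ^ Fintype.card M *
          (1 - u * v) ^ (Fintype.card M * Fintype.card D)) *
        (1 - v ^ 2) ^ (Fintype.card M * Fintype.card M))⁻¹ := by
    rw [hτprod, mul_pow, ← pow_mul, ← pow_mul, div_pow]
    have e : (1 - u * v) ^ (Fintype.card D * Fintype.card M) =
        (1 - u * v) ^ (Fintype.card M * J.card) *
          (1 - u * v) ^ ((Fintype.card D - J.card) * Fintype.card M) := by
      rw [← pow_add]
      congr 1
      obtain ⟨t, ht⟩ : ∃ t, Fintype.card D = J.card + t := ⟨_, (Nat.add_sub_cancel' hJ).symm⟩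
      rw [ht, Nat.add_sub_cancel_left]; ring
    rw [e, mul_comm J.card (Fintype.card M)]
    field_simp
  rw [hratio, mul_comm]
  exact mul_le_mul_of_nonneg_left hsum (by positivity)

/-- lower bound for one balanced block -/
lemma block_lb {R K : Type*} [Fintype R] [DecidableEq R] [Fintype K] [DecidableEq K]
    [Nonempty R] [Nonempty K] {N a b : ℕ} (ha : Fintype.card R * a = N)
    (hb : Fintype.card K * b = N) {q : ℝ}
    (hq : q * ((N + Fintype.card R * Fintype.card K : ℕ) : ℝ) = N) (hq0 : 0 ≤ q) (hq1 : q ≤ 1) :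
    1 ≤ ((N + Fintype.card R * Fintype.card K : ℕ) + 1 : ℝ) ^ 2 *
      ((N : ℝ) + 1) ^ (Fintype.card R + Fintype.card K) *
      ((tab (fun _ : R => a) (fun _ : K => b)).card : ℝ) *
      (q ^ N * (1 - q) ^ (Fintype.card R * Fintype.card K)) := by
  have hk : 1 ≤ Fintype.card R * Fintype.card K :=
    Nat.mul_pos Fintype.card_pos Fintype.card_pos
  have h1 := nb_lb' hk hq
  have h2 := tot_le (R := R) (K := K) ha hb
  have h3 : ((Fintype.card R * Fintype.card K + N - 1).choose N : ℝ) ≤
      ((N : ℝ) + 1) ^ (Fintype.card R + Fintype.card K) *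
        ((tab (fun _ : R => a) (fun _ : K => b)).card : ℝ) := by exact_mod_cast h2
  have h4 : 0 ≤ 1 - q := by linarith
  calc (1 : ℝ) ≤ _ := h1
    _ ≤ ((N + Fintype.card R * Fintype.card K : ℕ) + 1 : ℝ) ^ 2 *
        (((N : ℝ) + 1) ^ (Fintype.card R + Fintype.card K) *
          ((tab (fun _ : R => a) (fun _ : K => b)).card : ℝ)) *
        (q ^ N * (1 - q) ^ (Fintype.card R * Fintype.card K)) := by gcongr
    _ = _ := by ring

end Pool.Agent.Q296.CT
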