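import Pool.Agent.Q296.CT.Uni

/-! Lower bound for the number of balanced tables, upper bound for weighted counts. -/

set_option autoImplicit false
set_option linter.unusedSectionVars false

namespace Pool.Agent.Q296.CT

open Finset

section tot

variable {R K : Type*} [Fintype R] [DecidableEq R] [Fintype K] [DecidableEq K]

lemma tot_le {N a b : ℕ} (ha : Fintype.card R * a = N) (hb : Fintype.card K * b = N) :
    (Fintype.card R * Fintype.card K + N - 1).choose N ≤
      (N + 1) ^ (Fintype.card R + Fintype.card K) *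
        (tab (fun _ : R => a) (fun _ : K => b)).card := by
  classical
  obtain ⟨S, hS⟩ : ∃ S, S = Finset.finsuppAntidiag (univ : Finset (R × K)) N := ⟨_, rfl⟩
  have hcS : S.card = (Fintype.card R * Fintype.card K + N - 1).choose N := by
    rw [hS, Finset.card_finsuppAntidiag_nat_eq_choose, Finset.card_univ, Fintype.card_prod]
  have memS : ∀ f : R × K →₀ ℕ, f ∈ S ↔ ∑ x, f x = N := by
    intro f
    rw [hS, Finset.mem_finsuppAntidiag]
    simp
  rw [← hcS]
  obtain ⟨T, hT⟩ : ∃ T, T = (Fintype.piFinset (fun _ : R => range (N + 1))) ×ˢ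
    (Fintype.piFinset (fun _ : K => range (N + 1))) := ⟨_, rfl⟩
  have hcT : T.card = (N + 1) ^ (Fintype.card R + Fintype.card K) := by
    rw [hT, Finset.card_product, Fintype.card_piFinset, Fintype.card_piFinset]
    simp [pow_add]
  have hrow : ∀ f ∈ S, ∑ i, ∑ k, f (i, k) = N := by
    intro f hf
    rw [← (memS f).1 hf, Fintype.sum_prod_type]
  have hcol : ∀ f ∈ S, ∑ k, ∑ i, f (i, k) = N := by
    intro f hf
    rw [Finset.sum_comm]; exact hrow f hf
  rw [Finset.card_eq_sum_card_fiberwise (s := S) (t := T)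
    (f := fun f => ((fun i => ∑ k, f (i, k)), (fun k => ∑ i, f (i, k)))) ?_, ← hcT]
  · rw [← smul_eq_mul]
    apply Finset.sum_le_card_nsmul
    rintro ⟨r, c⟩ _
    rcases Finset.eq_empty_or_nonempty (S.filter (fun f =>
      ((fun i => ∑ k, f (i, k)), (fun k => ∑ i, f (i, k))) = (r, c))) with h | ⟨f, hf⟩
    · rw [h, card_empty]; exact Nat.zero_le _
    · rw [mem_filter, Prod.mk.injEq] at hf
      have hr : ∑ i, r i = Fintype.card R * a := by
        rw [← hf.2.1, ha]; exact hrow f hf.1
      have hc : ∑ k, c k = Fintype.card K * b := by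
        rw [← hf.2.2, hb]; exact hcol f hf.1
      refine le_trans ?_ (bal_max r c a b hr hc)
      apply Finset.card_le_card_of_injOn (fun f => fun i k => f (i, k))
      · intro g hg
        simp only [coe_filter, Prod.mk.injEq] at hg
        have hg' := hg.2
        rw [mem_coe, mem_tab]
        exact ⟨fun i => congrFun hg'.1 i, fun k => congrFun hg'.2 k⟩
      · intro g _ g' _ h
        ext ⟨i, k⟩
        exact congrFun (congrFun h i) k
  · intro f hf
    have hf' : f ∈ S := hf
    rw [hT]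
    simp only [coe_product, Set.mem_prod, mem_coe, Fintype.mem_piFinset, mem_range]
    constructor
    · intro i
      rw [Nat.lt_succ_iff, ← hrow f hf']
      exact Finset.single_le_sum (f := fun i => ∑ k, f (i, k)) (fun _ _ => Nat.zero_le _)
        (mem_univ i)
    · intro k
      rw [Nat.lt_succ_iff, ← hcol f hf']
      exact Finset.single_le_sum (f := fun k => ∑ i, f (i, k)) (fun _ _ => Nat.zero_le _)
        (mem_univ k)

end tot

/-- the largest term of the binomial expansion -/
lemma choose_lb {m j : ℕ} (hj : j ≤ m) :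
    m ^ m ≤ (m + 1) * (m.choose j * j ^ j * (m - j) ^ (m - j)) := by
  obtain ⟨T, hT⟩ : ∃ T : ℕ → ℕ, T = fun i => j ^ i * (m - j) ^ (m - i) * m.choose i := ⟨_, rfl⟩
  have hTi : ∀ i, T i = j ^ i * (m - j) ^ (m - i) * m.choose i := fun i => by rw [hT]
  have hstep : ∀ i, i < m → T (i + 1) * ((i + 1) * (m - j)) = T i * ((m - i) * j) := by
    intro i hi
    rw [hTi, hTi]
    have h1 := Nat.choose_succ_right_eq m i
    have h2 : (m - j) ^ (m - i) = (m - j) ^ (m - (i + 1)) * (m - j) := by
      rw [← pow_succ]; congr 1; omega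
    rw [h2, pow_succ]
    calc j ^ i * j * (m - j) ^ (m - (i + 1)) * m.choose (i + 1) * ((i + 1) * (m - j))
        = j ^ i * j * (m - j) ^ (m - (i + 1)) * (m - j) * (m.choose (i + 1) * (i + 1)) := by ring
      _ = j ^ i * j * (m - j) ^ (m - (i + 1)) * (m - j) * (m.choose i * (m - i)) := by rw [h1]
      _ = _ := by ring
  have hup : ∀ k, k ≤ j → T (j - k) ≤ T j := by
    intro k
    induction k with
    | zero => intro _; exact le_refl _
    | succ k ih =>
      intro hk
      refine le_trans ?_ (ih (by omega))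
      obtain ⟨i, hi⟩ : ∃ i, i = j - (k + 1) := ⟨_, rfl⟩
      rw [← hi, show j - k = i + 1 by omega]
      rcases hj.lt_or_eq with h | h
      · have h1 := hstep i (by omega)
        have h2 : (i + 1) * (m - j) ≤ (m - i) * j := by
          obtain ⟨a, ha⟩ : ∃ a, m = j + a := ⟨m - j, by omega⟩
          obtain ⟨b, hb⟩ : ∃ b, j = i + 1 + b := ⟨j - (i + 1), by omega⟩
          rw [show m - j = a by omega, show m - i = 1 + b + a by omega, hb]
          nlinarith [Nat.zero_le (b * a), Nat.zero_le i]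
        have h3 : 0 < (i + 1) * (m - j) := Nat.mul_pos (by omega) (by omega)
        have h4 : T i * ((i + 1) * (m - j)) ≤ T (i + 1) * ((i + 1) * (m - j)) := by
          rw [h1]; exact Nat.mul_le_mul_left _ h2
        exact Nat.le_of_mul_le_mul_right h4 h3
      · have : T i = 0 := by
          rw [hTi, h, Nat.sub_self, Nat.zero_pow (by omega)]; simp
        rw [this]; exact Nat.zero_le _
  have hdn : ∀ k, j + k ≤ m → T (j + k) ≤ T j := by
    intro k
    induction k with
    | zero => intro _; exact le_refl _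
    | succ k ih =>
      intro hk
      refine le_trans ?_ (ih (by omega))
      have h1 := hstep (j + k) (by omega)
      have h2 : (m - (j + k)) * j ≤ (j + k + 1) * (m - j) := by
        have e1 : m - (j + k) ≤ m - j := by omega
        calc (m - (j + k)) * j ≤ (m - j) * j := Nat.mul_le_mul_right _ e1
          _ ≤ (m - j) * (j + k + 1) := Nat.mul_le_mul_left _ (by omega)
          _ = _ := by ring
      have h3 : 0 < (j + k + 1) * (m - j) := Nat.mul_pos (by omega) (by omega)
      have h4 : T (j + k + 1) * ((j + k + 1) * (m - j)) ≤ T (j + k) * ((j + k + 1) * (m - j)) := by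
        rw [h1]; exact Nat.mul_le_mul_left _ h2
      exact Nat.le_of_mul_le_mul_right h4 h3
  have hall : ∀ i ∈ range (m + 1), T i ≤ T j := by
    intro i hi
    rw [mem_range] at hi
    rcases le_or_gt i j with h | h
    · have := hup (j - i) (by omega)
      rwa [show j - (j - i) = i by omega] at this
    · have := hdn (i - j) (by omega)
      rwa [show j + (i - j) = i by omega] at this
  have hexp : (j + (m - j)) ^ m = ∑ i ∈ range (m + 1), T i := by
    rw [add_pow]
    apply Finset.sum_congr rfl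
    intro i _
    rw [hTi]
    push_cast
    ring
  rw [show j + (m - j) = m by omega] at hexp
  rw [hexp]
  calc ∑ i ∈ range (m + 1), T i ≤ ∑ _i ∈ range (m + 1), T j := Finset.sum_le_sum hall
    _ = (m + 1) * T j := by rw [Finset.sum_const, card_range, smul_eq_mul]
    _ = _ := by rw [hTi]; ring

/-- lower bound for the number of all tables with a given total -/
lemma nb_lb {N k : ℕ} (hk : 1 ≤ k) :
    ((N + k : ℕ) : ℝ) ^ (N + k) ≤
      ((N + k : ℕ) + 1 : ℝ) ^ 2 * ((k + N - 1).choose N : ℝ) * (N : ℝ) ^ N * (k : ℝ) ^ k := by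
  have h1 := choose_lb (m := N + k) (j := N) (by omega)
  rw [Nat.add_sub_cancel_left] at h1
  have h2 : (N + k).choose N * k = (N + k - 1).choose N * (N + k) := by
    have := Nat.choose_mul_succ_eq (N + k - 1) N
    rw [show N + k - 1 + 1 = N + k by omega, show N + k - N = k by omega] at this
    rw [← this]
  have h3 : (N + k).choose N ≤ (N + k - 1).choose N * (N + k) := by
    rw [← h2]; exact Nat.le_mul_of_pos_right _ (by omega)
  have h4 : (N + k) ^ (N + k) ≤
      (N + k + 1) ^ 2 * (k + N - 1).choose N * N ^ N * k ^ k := by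
    calc (N + k) ^ (N + k) ≤ (N + k + 1) * ((N + k).choose N * N ^ N * k ^ k) := h1
      _ ≤ (N + k + 1) * (((N + k - 1).choose N * (N + k)) * N ^ N * k ^ k) := by gcongr
      _ ≤ (N + k + 1) * (((N + k - 1).choose N * (N + k + 1)) * N ^ N * k ^ k) :=
          Nat.mul_le_mul_left _ (Nat.mul_le_mul_right _ (Nat.mul_le_mul_right _
            (Nat.mul_le_mul_left _ (Nat.le_succ _))))
      _ = _ := by rw [show k + N - 1 = N + k - 1 by omega]; ring
  exact_mod_cast h4

/-- in terms of the geometric parameter -/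
lemma nb_lb' {N k : ℕ} (hk : 1 ≤ k) {q : ℝ} (hq : q * ((N + k : ℕ) : ℝ) = N) :
    1 ≤ ((N + k : ℕ) + 1 : ℝ) ^ 2 * ((k + N - 1).choose N : ℝ) * (q ^ N * (1 - q) ^ k) := by
  have hpos : (0 : ℝ) < ((N + k : ℕ) : ℝ) := by
    have : 0 < N + k := by omega
    exact_mod_cast this
  have h1 := nb_lb (N := N) hk
  have e1 : q = N / ((N + k : ℕ) : ℝ) := by field_simp; linarith
  have e2 : 1 - q = k / ((N + k : ℕ) : ℝ) := by
    rw [e1]; field_simp; push_cast; ring
  rw [e2, e1, div_pow, div_pow]
  have h2 : ((N + k : ℕ) : ℝ) ^ (N + k) = ((N + k : ℕ) : ℝ) ^ N * ((N + k : ℕ) : ℝ) ^ k :=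
    pow_add _ _ _
  rw [h2] at h1
  have h3 : (0 : ℝ) < ((N + k : ℕ) : ℝ) ^ N * ((N + k : ℕ) : ℝ) ^ k := by positivity
  have h4 : ((N + k : ℕ) + 1 : ℝ) ^ 2 * ((k + N - 1).choose N : ℝ) *
      ((N : ℝ) ^ N / ((N + k : ℕ) : ℝ) ^ N * ((k : ℝ) ^ k / ((N + k : ℕ) : ℝ) ^ k)) =
      (((N + k : ℕ) + 1 : ℝ) ^ 2 * ((k + N - 1).choose N : ℝ) * (N : ℝ) ^ N * (k : ℝ) ^ k) /
        (((N + k : ℕ) : ℝ) ^ N * ((N + k : ℕ) : ℝ) ^ k) := by
    field_simp
  rw [h4, le_div_iff₀ h3, one_mul]
  exact h1

/-- changing the parameter costs the relative entropy -/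
lemma kl_cost {N k : ℕ} {q p : ℝ} (hq : p * ((N + k : ℕ) : ℝ) = N) (hq0 : 0 < q) (hq1 : q < 1)
    (hp0 : 0 < p) (hp1 : p < 1) :
    p ^ N * (1 - p) ^ k ≤
      q ^ N * (1 - q) ^ k * Real.exp (((N + k : ℕ) : ℝ) * (q - p) ^ 2 / (q * (1 - q))) := by
  have h1 : p / q ≤ Real.exp (p / q - 1) := by
    have := Real.add_one_le_exp (p / q - 1); linarith
  have h2 : (1 - p) / (1 - q) ≤ Real.exp ((1 - p) / (1 - q) - 1) := by
    have := Real.add_one_le_exp ((1 - p) / (1 - q) - 1); linarith
  have hq1' : 0 < 1 - q := by linarith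
  have hp1' : 0 < 1 - p := by linarith
  have h3 : (p / q) ^ N * ((1 - p) / (1 - q)) ^ k ≤
      Real.exp (N * (p / q - 1) + k * ((1 - p) / (1 - q) - 1)) := by
    rw [Real.exp_add, Real.exp_nat_mul, Real.exp_nat_mul]
    gcongr
  have h4 : (N : ℝ) * (p / q - 1) + k * ((1 - p) / (1 - q) - 1) =
      ((N + k : ℕ) : ℝ) * (q - p) ^ 2 / (q * (1 - q)) := by
    have hk : (k : ℝ) = ((N + k : ℕ) : ℝ) - N := by push_cast; ring
    rw [hk, ← hq]
    field_simp
    ring
  rw [h4] at h3
  have h5 : p ^ N * (1 - p) ^ k = q ^ N * (1 - q) ^ k * ((p / q) ^ N * ((1 - p) / (1 - q)) ^ k) := by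
    rw [div_pow, div_pow]; field_simp
  rw [h5]
  gcongr

/-- weighted sums over finite sets of tables -/
lemma box_sum {ι κ : Type*} [Fintype ι] [DecidableEq ι] [Fintype κ] [DecidableEq κ]
    (g : ι → κ → ℝ) (h0 : ∀ i j, 0 ≤ g i j) (h1 : ∀ i j, g i j < 1) (A : Finset (ι → κ → ℕ)) :
    ∑ X ∈ A, ∏ i, ∏ j, g i j ^ X i j ≤ ∏ i, ∏ j, (1 - g i j)⁻¹ := by
  classical
  obtain ⟨L, hL⟩ : ∃ L, ∀ X ∈ A, ∀ i j, X i j < L := by
    refine ⟨(∑ X ∈ A, ∑ i, ∑ j, X i j) + 1, fun X hX i j => ?_⟩
    rw [Nat.lt_succ_iff]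
    calc X i j ≤ ∑ j, X i j :=
          Finset.single_le_sum (f := fun j => X i j) (fun _ _ => Nat.zero_le _) (mem_univ j)
      _ ≤ ∑ i, ∑ j, X i j :=
          Finset.single_le_sum (f := fun i => ∑ j, X i j) (fun _ _ => Nat.zero_le _) (mem_univ i)
      _ ≤ _ := Finset.single_le_sum (f := fun X : ι → κ → ℕ => ∑ i, ∑ j, X i j)
          (fun _ _ => Nat.zero_le _) hX
  have hsub : A ⊆ Fintype.piFinset (fun _ : ι => Fintype.piFinset (fun _ : κ => range L)) := by
    intro X hX
    rw [Fintype.mem_piFinset]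
    intro i
    rw [Fintype.mem_piFinset]
    intro j
    exact mem_range.2 (hL X hX i j)
  calc ∑ X ∈ A, ∏ i, ∏ j, g i j ^ X i j
      ≤ ∑ X ∈ Fintype.piFinset (fun _ : ι => Fintype.piFinset (fun _ : κ => range L)),
          ∏ i, ∏ j, g i j ^ X i j := by
        apply Finset.sum_le_sum_of_subset_of_nonneg hsub
        intro X _ _
        exact Finset.prod_nonneg (fun i _ => Finset.prod_nonneg (fun j _ => pow_nonneg (h0 i j) _))
    _ = ∏ i, ∑ f ∈ Fintype.piFinset (fun _ : κ => range L), ∏ j, g i j ^ f j := by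
        rw [Finset.prod_univ_sum]
    _ = ∏ i, ∏ j, ∑ x ∈ range L, g i j ^ x := by
        apply Finset.prod_congr rfl
        intro i _
        rw [Finset.prod_univ_sum]
    _ ≤ ∏ i, ∏ j, (1 - g i j)⁻¹ := by
        apply Finset.prod_le_prod
        · intro i _
          exact Finset.prod_nonneg (fun j _ => Finset.sum_nonneg (fun x _ => pow_nonneg (h0 i j) _))
        · intro i _
          apply Finset.prod_le_prod
          · intro j _
            exact Finset.sum_nonneg (fun x _ => pow_nonneg (h0 i j) _)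
          · intro j _
            have hpos : 0 < 1 - g i j := by linarith [h1 i j]
            rw [geom_sum_eq (ne_of_lt (h1 i j)), ← neg_div_neg_eq, neg_sub, neg_sub, ← one_div]
            gcongr
            linarith [pow_nonneg (h0 i j) L]

end Pool.Agent.Q296.CT
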