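import Pool.Agent.Q296.CT.Asym

/-! The light part of the first row is at most `n - 2d` with high probability. -/

set_option autoImplicit false
set_option linter.unusedSectionVars false

namespace Pool.Agent.Q296.CT

open Finset Filter Topology

lemma log_small {η : ℝ} (hη : 0 < η) (K : ℝ) :
    ∀ᶠ m : ℕ in atTop, K + 3520 * Real.log m ≤ 81 / 2 * η * m := by
  have h1 : ∀ᶠ m : ℕ in atTop, ‖Real.log (m : ℝ)‖ ≤ (η / 3520) * ‖(m : ℝ)‖ := by
    have := Real.isLittleO_log_id_atTop.def (show 0 < η / 3520 by positivity)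
    exact tendsto_natCast_atTop_atTop.eventually this
  have h2 : ∀ᶠ m : ℕ in atTop, K / η ≤ (m : ℝ) :=
    tendsto_natCast_atTop_atTop.eventually_ge_atTop _
  filter_upwards [h1, h2] with m hm1 hm2
  rw [Real.norm_eq_abs, Real.norm_eq_abs, abs_of_nonneg (Nat.cast_nonneg m : (0 : ℝ) ≤ (m : ℝ))] at hm1
  have h3 : Real.log m ≤ (η / 3520) * m := le_trans (le_abs_self _) hm1
  have h4 : K ≤ η * m := by
    rw [div_le_iff₀ hη] at hm2; linarith
  have h5 : 0 ≤ η * (m : ℝ) := by positivity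
  nlinarith

lemma small {η : ℝ} (hη : 0 < η) (hη1 : η ≤ 1) :
    ∀ᶠ m : ℕ in atTop,
      2 ^ (27 * m ^ 3) * (loss m * Real.exp (-(81 / 2 * η * (m : ℝ) ^ 5))) ≤ η := by
  have hc : 0 ≤ -Real.log η := by
    have := Real.log_nonpos hη.le hη1
    linarith
  filter_upwards [log_small hη (27 + 440 * 10 ^ 4 + 1166400 + -Real.log η),
    eventually_ge_atTop 1] with m hm hm1
  obtain ⟨x, hx⟩ : ∃ x : ℝ, x = m := ⟨_, rfl⟩
  have hx1 : 1 ≤ x := by rw [hx]; exact_mod_cast hm1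
  have hx0 : 0 < x := by linarith
  rw [← hx] at hm ⊢
  have hlog : 0 ≤ Real.log x := Real.log_nonneg hx1
  have hL0 : (0 : ℝ) < 10 ^ 4 * x ^ 8 := by positivity
  have e1 : (2 : ℝ) ^ (27 * m ^ 3) ≤ Real.exp (27 * x ^ 3) := by
    have h2 : (2 : ℝ) ≤ Real.exp 1 := by
      have := Real.add_one_le_exp (1 : ℝ)
      linarith
    calc (2 : ℝ) ^ (27 * m ^ 3) ≤ Real.exp 1 ^ (27 * m ^ 3) := by gcongr
      _ = Real.exp (27 * x ^ 3) := by
          rw [← Real.exp_nat_mul]; congr 1; push_cast; rw [hx]; ring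
  have e2 : loss m = Real.exp ((8 + 108 * x ^ 3 + 324 * x ^ 4) *
      Real.log (10 ^ 4 * x ^ 8) + 1166400 * x ^ 4) := by
    unfold loss
    rw [← hx, Real.exp_add]
    congr 1
    rw [← Real.rpow_natCast, Real.rpow_def_of_pos hL0]
    congr 1
    push_cast
    rw [← hx]
    ring
  have e3 : Real.log (10 ^ 4 * x ^ 8) ≤ 10 ^ 4 + 8 * Real.log x := by
    rw [Real.log_mul (by norm_num) (by positivity)]
    have h1 : Real.log (x ^ 8) = 8 * Real.log x := by rw [Real.log_pow]; norm_num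
    have := Real.log_le_self (show (0 : ℝ) ≤ 10 ^ 4 by norm_num)
    rw [h1]
    linarith
  have x3 : x ^ 3 ≤ x ^ 4 := pow_le_pow_right₀ hx1 (by norm_num)
  have x4 : 1 ≤ x ^ 4 := one_le_pow₀ hx1
  have e4 : (8 + 108 * x ^ 3 + 324 * x ^ 4) * Real.log (10 ^ 4 * x ^ 8) ≤
      440 * x ^ 4 * (10 ^ 4 + 8 * Real.log x) := by
    have h0 : 0 ≤ Real.log (10 ^ 4 * x ^ 8) := by
      apply Real.log_nonneg
      have : 1 ≤ x ^ 8 := one_le_pow₀ hx1
      nlinarith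
    apply mul_le_mul _ e3 h0 (by positivity)
    linarith
  have e5 : 27 * x ^ 3 + ((8 + 108 * x ^ 3 + 324 * x ^ 4) *
      Real.log (10 ^ 4 * x ^ 8) + 1166400 * x ^ 4) + -(81 / 2 * η * x ^ 5) ≤ Real.log η := by
    have h6 : x ^ 4 * (27 + 440 * 10 ^ 4 + 1166400 + -Real.log η + 3520 * Real.log x) ≤
        x ^ 4 * (81 / 2 * η * x) := mul_le_mul_of_nonneg_left hm (by positivity)
    have h7 : -Real.log η ≤ x ^ 4 * (-Real.log η) := le_mul_of_one_le_left hc x4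
    have h8 : x ^ 4 * (81 / 2 * η * x) = 81 / 2 * η * x ^ 5 := by ring
    obtain ⟨T, hT⟩ : ∃ T, T = (8 + 108 * x ^ 3 + 324 * x ^ 4) * Real.log (10 ^ 4 * x ^ 8) :=
      ⟨_, rfl⟩
    obtain ⟨lη, hlη⟩ : ∃ T, T = Real.log η := ⟨_, rfl⟩
    obtain ⟨lx, hlx⟩ : ∃ T, T = Real.log x := ⟨_, rfl⟩
    rw [← hT] at e4 ⊢
    rw [← hlη] at h6 h7 ⊢
    rw [← hlx] at e4 h6
    rw [h8] at h6
    have h9 : x ^ 4 * (27 + 440 * 10 ^ 4 + 1166400 + -lη + 3520 * lx) =
      27 * x ^ 4 + 440 * x ^ 4 * (10 ^ 4 + 8 * lx) + 1166400 * x ^ 4 + x ^ 4 * -lη := by ring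
    rw [h9] at h6
    linarith
  calc 2 ^ (27 * m ^ 3) * (loss m * Real.exp (-(81 / 2 * η * x ^ 5)))
      ≤ Real.exp (27 * x ^ 3) * (loss m * Real.exp (-(81 / 2 * η * x ^ 5))) := by
        have : 0 ≤ loss m := by unfold loss; positivity
        gcongr
    _ = Real.exp (27 * x ^ 3 + ((8 + 108 * x ^ 3 + 324 * x ^ 4) *
      Real.log (10 ^ 4 * x ^ 8) + 1166400 * x ^ 4) + -(81 / 2 * η * x ^ 5)) := by
        rw [e2, Real.exp_add (27 * x ^ 3 + _), Real.exp_add (27 * x ^ 3)]; ring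
    _ ≤ Real.exp (Real.log η) := Real.exp_le_exp.2 e5
    _ = η := Real.exp_log hη

/-- With high probability the light part of any given heavy row is below `n - 2d`. -/
theorem mean_shift {η : ℝ} (hη : 0 < η) (hη1 : η ≤ 1) :
    ∃ m0 : ℕ, ∀ m : ℕ, m0 ≤ m → ∀ (D M : Type) [Fintype D] [DecidableEq D] [Fintype M]
      [DecidableEq M], Fintype.card D = 27 * m ^ 3 → Fintype.card M = 81 * m ^ 4 → ∀ i : D,
      ((ev D M (189 * m ^ 4) (27 * m ^ 4) (81 * m ^ 4 - 54 * m ^ 3) i).card : ℝ) ≤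
        2 * η * (Full D M (189 * m ^ 4) (27 * m ^ 4)).card := by
  obtain ⟨m0, hm0⟩ := eventually_atTop.1 (small hη hη1)
  refine ⟨max m0 3, fun m hm D M _ _ _ _ hD hM i => ?_⟩
  have hs := hm0 m (le_trans (le_max_left _ _) hm)
  have hm3 : 3 ≤ m := le_trans (le_max_right _ _) hm
  obtain ⟨k, hk⟩ : ∃ k, m = k + 1 := ⟨m - 1, by omega⟩
  have hs0 : 81 * m ^ 4 - 54 * m ^ 3 = 27 * m ^ 3 * (3 * k + 1) := by
    have : 81 * m ^ 4 = 27 * m ^ 3 * (3 * k + 1) + 54 * m ^ 3 := by rw [hk]; ring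
    omega
  rw [hs0]
  obtain ⟨ε, hε⟩ : ∃ ε : ℝ, ε = loss m * Real.exp (-(81 / 2 * η * (m : ℝ) ^ 5)) := ⟨_, rfl⟩
  rw [← hε] at hs
  have hloss : 0 ≤ loss m := by unfold loss; positivity
  have hε0 : 0 ≤ ε := by rw [hε]; positivity
  have hb : ∀ J : Finset D, η * Fintype.card D ≤ J.card →
      ((bad D M (189 * m ^ 4) (27 * m ^ 4) J (27 * m ^ 3 * (3 * k + 1))).card : ℝ) ≤
        ε * (Full D M (189 * m ^ 4) (27 * m ^ 4)).card := by
    intro J hJ
    have h1 := one_m (k := k) (m := m) (by omega) hk hD hM J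
    refine le_trans h1 ?_
    rw [hD] at hJ
    push_cast at hJ
    rw [hε]
    have h2 : Real.exp (-(3 / 2 * (m : ℝ) ^ 2 * J.card)) ≤
        Real.exp (-(81 / 2 * η * (m : ℝ) ^ 5)) := by
      apply Real.exp_le_exp.2
      have : 3 / 2 * (m : ℝ) ^ 2 * (η * (27 * m ^ 3)) ≤ 3 / 2 * (m : ℝ) ^ 2 * J.card := by gcongr
      nlinarith
    calc ((Full D M (189 * m ^ 4) (27 * m ^ 4)).card : ℝ) * loss m *
          Real.exp (-(3 / 2 * (m : ℝ) ^ 2 * J.card)) ≤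
        ((Full D M (189 * m ^ 4) (27 * m ^ 4)).card : ℝ) * loss m *
          Real.exp (-(81 / 2 * η * (m : ℝ) ^ 5)) := by gcongr
      _ = _ := by ring
  have hU := union_bd (M := M) i hη hε0 hb
  refine le_trans hU ?_
  rw [hD]
  have : η + 2 ^ (27 * m ^ 3) * ε ≤ 2 * η := by linarith
  gcongr

end Pool.Agent.Q296.CT
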