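import Pool.Agent.Q296.CT.Block

/-! The probability that the light part of the first row is large. -/

set_option autoImplicit false
set_option linter.unusedSectionVars false

namespace Pool.Agent.Q296.CT

open Finset

variable {D M : Type*} [Fintype D] [DecidableEq D] [Fintype M] [DecidableEq M]

/-- one factor of the loss -/
noncomputable def ls (N k e : ℕ) : ℝ := ((N + k : ℕ) + 1 : ℝ) ^ 2 * ((N : ℝ) + 1) ^ e

lemma ratio [Nonempty D] [Nonempty M] {b r s a h l s0 : ℕ} (hh : b + r = h) (hl : s + a = l)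
    (hrs : Fintype.card D * r = Fintype.card M * s) {u v p θ : ℝ} (hu0 : 0 < u) (hu1 : u ^ 2 < 1)
    (hv0 : 0 < v) (hv1 : v ^ 2 < 1) (hθ : 1 ≤ θ) (huv : u * v * θ < 1) (hp0 : 0 < p) (hp1 : p < 1)
    (hp : p * ((Fintype.card D * b + Fintype.card D * Fintype.card D : ℕ) : ℝ) =
      (Fintype.card D * b : ℕ))
    (h12 : u * v * ((Fintype.card D * r + Fintype.card D * Fintype.card M : ℕ) : ℝ) =
      (Fintype.card D * r : ℕ))
    (h22 : v ^ 2 * ((Fintype.card M * a + Fintype.card M * Fintype.card M : ℕ) : ℝ) =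
      (Fintype.card M * a : ℕ)) (J : Finset D) :
    ((bad D M h l J s0).card : ℝ) * θ ^ (s0 * J.card) ≤
      ((Full D M h l).card : ℝ) *
      (ls (Fintype.card D * b) (Fintype.card D * Fintype.card D) (Fintype.card D + Fintype.card D) *
        Real.exp (((Fintype.card D * b + Fintype.card D * Fintype.card D : ℕ) : ℝ) *
          (u ^ 2 - p) ^ 2 / (u ^ 2 * (1 - u ^ 2))) *
        ls (Fintype.card D * r) (Fintype.card D * Fintype.card M) (Fintype.card D + Fintype.card M) *
        ls (Fintype.card D * r) (Fintype.card M * Fintype.card D) (Fintype.card M + Fintype.card D) *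
        ls (Fintype.card M * a) (Fintype.card M * Fintype.card M)
          (Fintype.card M + Fintype.card M)) *
      ((1 - u * v) / (1 - u * v * θ)) ^ (Fintype.card M * J.card) := by
  classical
  have huv0 : 0 < u * v := mul_pos hu0 hv0
  have huv1 : u * v < 1 := by nlinarith
  have b11 := block_lb (R := D) (K := D) (a := b) (b := b) rfl rfl hp hp0.le hp1.le
  have b12 := block_lb (R := D) (K := M) (a := r) (b := s) rfl hrs.symm h12 huv0.le huv1.le
  have b21 := block_lb (R := M) (K := D) (a := s) (b := r) (N := Fintype.card D * r) hrs.symm rfl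
    (by rw [mul_comm (Fintype.card M) (Fintype.card D)]; exact h12) huv0.le huv1.le
  have b22 := block_lb (R := M) (K := M) (a := a) (b := a) rfl rfl h22 (by positivity) hv1.le
  have kl := kl_cost (N := Fintype.card D * b) (k := Fintype.card D * Fintype.card D)
    (q := u ^ 2) hp (by positivity) hu1 hp0 hp1
  have hasm := asm (D := D) (M := M) hh hl
  obtain ⟨c11, hc11⟩ : ∃ c : ℝ, c = ((tab (fun _ : D => b) (fun _ : D => b)).card : ℝ) := ⟨_, rfl⟩
  obtain ⟨c12, hc12⟩ : ∃ c : ℝ, c = ((tab (fun _ : D => r) (fun _ : M => s)).card : ℝ) := ⟨_, rfl⟩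
  obtain ⟨c21, hc21⟩ : ∃ c : ℝ, c = ((tab (fun _ : M => s) (fun _ : D => r)).card : ℝ) := ⟨_, rfl⟩
  obtain ⟨c22, hc22⟩ : ∃ c : ℝ, c = ((tab (fun _ : M => a) (fun _ : M => a)).card : ℝ) := ⟨_, rfl⟩
  obtain ⟨F, hF⟩ : ∃ F : ℝ, F = ((Full D M h l).card : ℝ) := ⟨_, rfl⟩
  have hasm' : c11 * c12 * c21 * c22 ≤ F := by
    rw [hc11, hc12, hc21, hc22, hF]; exact_mod_cast hasm
  rw [← hc11] at b11
  rw [← hc12] at b12
  rw [← hc21] at b21
  rw [← hc22] at b22
  have hbad := bad_le (D := D) (M := M) (h := h) (l := l) J s0 hu0 hu1 hv0 hv1 hθ huv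
  rw [← hF]
  have p1 : 0 < 1 - u ^ 2 := by linarith
  have p2 : 0 < 1 - v ^ 2 := by linarith
  have p3 : 0 < 1 - u * v := by linarith
  have p4 : 0 < 1 - u * v * θ := by linarith
  obtain ⟨K11, hK11⟩ : ∃ K, K = ls (Fintype.card D * b) (Fintype.card D * Fintype.card D)
    (Fintype.card D + Fintype.card D) := ⟨_, rfl⟩
  obtain ⟨K12, hK12⟩ : ∃ K, K = ls (Fintype.card D * r) (Fintype.card D * Fintype.card M)
    (Fintype.card D + Fintype.card M) := ⟨_, rfl⟩
  obtain ⟨K21, hK21⟩ : ∃ K, K = ls (Fintype.card D * r) (Fintype.card M * Fintype.card D)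
    (Fintype.card M + Fintype.card D) := ⟨_, rfl⟩
  obtain ⟨K22, hK22⟩ : ∃ K, K = ls (Fintype.card M * a) (Fintype.card M * Fintype.card M)
    (Fintype.card M + Fintype.card M) := ⟨_, rfl⟩
  obtain ⟨ex, hex⟩ : ∃ ex, ex = Real.exp (((Fintype.card D * b +
    Fintype.card D * Fintype.card D : ℕ) : ℝ) * (u ^ 2 - p) ^ 2 / (u ^ 2 * (1 - u ^ 2))) :=
    ⟨_, rfl⟩
  rw [← hK11, ← hK12, ← hK21, ← hK22, ← hex]
  have k11 : 0 < K11 := by rw [hK11]; unfold ls; positivity
  have k12 : 0 < K12 := by rw [hK12]; unfold ls; positivity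
  have k21 : 0 < K21 := by rw [hK21]; unfold ls; positivity
  have k22 : 0 < K22 := by rw [hK22]; unfold ls; positivity
  have hex0 : 0 < ex := by rw [hex]; exact Real.exp_pos _
  have c0 : 0 ≤ c11 ∧ 0 ≤ c12 ∧ 0 ≤ c21 ∧ 0 ≤ c22 := by
    rw [hc11, hc12, hc21, hc22]
    exact ⟨Nat.cast_nonneg _, Nat.cast_nonneg _, Nat.cast_nonneg _, Nat.cast_nonneg _⟩
  obtain ⟨c011, c012, c021, c022⟩ := c0
  rw [← hex] at kl
  have b11' : 1 ≤ K11 * c11 * ((u ^ 2) ^ (Fintype.card D * b) *
      (1 - u ^ 2) ^ (Fintype.card D * Fintype.card D) * ex) := by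
    refine le_trans b11 ?_
    rw [hK11]
    unfold ls
    gcongr
  have b12' : 1 ≤ K12 * c12 * ((u * v) ^ (Fintype.card D * r) *
      (1 - u * v) ^ (Fintype.card D * Fintype.card M)) := by rw [hK12]; exact b12
  have b21' : 1 ≤ K21 * c21 * ((u * v) ^ (Fintype.card D * r) *
      (1 - u * v) ^ (Fintype.card M * Fintype.card D)) := by rw [hK21]; exact b21
  have b22' : 1 ≤ K22 * c22 * ((v ^ 2) ^ (Fintype.card M * a) *
      (1 - v ^ 2) ^ (Fintype.card M * Fintype.card M)) := by rw [hK22]; exact b22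
  obtain ⟨W, hW⟩ : ∃ W : ℝ, W = (u ^ 2) ^ (h * Fintype.card D) * (v ^ 2) ^ (l * Fintype.card M) :=
    ⟨_, rfl⟩
  obtain ⟨P, hP⟩ : ∃ P : ℝ, P = (1 - u ^ 2) ^ (Fintype.card D * Fintype.card D) *
        ((1 - u * v) ^ (Fintype.card D * Fintype.card M) *
          (1 - u * v) ^ (Fintype.card M * Fintype.card D)) *
        (1 - v ^ 2) ^ (Fintype.card M * Fintype.card M) := ⟨_, rfl⟩
  have hW0 : 0 < W := by rw [hW]; positivity
  have hP0 : 0 < P := by rw [hP]; positivity
  rw [← hW, ← hP] at hbad
  have hWeq : (u ^ 2) ^ (Fintype.card D * b) * ((u * v) ^ (Fintype.card D * r) *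
      (u * v) ^ (Fintype.card D * r)) * (v ^ 2) ^ (Fintype.card M * a) = W := by
    rw [hW, ← hh, ← hl]
    have e1 : (u * v) ^ (Fintype.card D * r) * (u * v) ^ (Fintype.card D * r) =
        (u ^ 2) ^ (Fintype.card D * r) * (v ^ 2) ^ (Fintype.card M * s) := by
      rw [← hrs, ← mul_pow, ← mul_pow]; ring
    rw [e1]
    have e2 : (u ^ 2) ^ ((b + r) * Fintype.card D) =
        (u ^ 2) ^ (Fintype.card D * b) * (u ^ 2) ^ (Fintype.card D * r) := by
      rw [← pow_add]; ring
    have e3 : (v ^ 2) ^ ((s + a) * Fintype.card M) =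
        (v ^ 2) ^ (Fintype.card M * s) * (v ^ 2) ^ (Fintype.card M * a) := by
      rw [← pow_add]; ring
    rw [e2, e3]; ring
  have hone : 1 ≤ (K11 * ex * K12 * K21 * K22) * F * (W * P) := by
    have h1 := one_le_mul_of_one_le_of_one_le (one_le_mul_of_one_le_of_one_le
      (one_le_mul_of_one_le_of_one_le b11' b12') b21') b22'
    refine le_trans h1 ?_
    have e : K11 * c11 * ((u ^ 2) ^ (Fintype.card D * b) *
        (1 - u ^ 2) ^ (Fintype.card D * Fintype.card D) * ex) *
        (K12 * c12 * ((u * v) ^ (Fintype.card D * r) *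
          (1 - u * v) ^ (Fintype.card D * Fintype.card M))) *
        (K21 * c21 * ((u * v) ^ (Fintype.card D * r) *
          (1 - u * v) ^ (Fintype.card M * Fintype.card D))) *
        (K22 * c22 * ((v ^ 2) ^ (Fintype.card M * a) *
          (1 - v ^ 2) ^ (Fintype.card M * Fintype.card M))) =
        (K11 * ex * K12 * K21 * K22) * (c11 * c12 * c21 * c22) * (W * P) := by
      rw [← hWeq, hP]; ring
    rw [e]
    gcongr
  -- conclusion
  obtain ⟨Q, hQ⟩ : ∃ Q : ℝ, Q = ((1 - u * v) / (1 - u * v * θ)) ^ (Fintype.card M * J.card) :=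
    ⟨_, rfl⟩
  rw [← hQ] at hbad ⊢
  have hQ0 : 0 ≤ Q := by
    rw [hQ]; exact pow_nonneg (div_nonneg p3.le p4.le) _
  have hWP : 0 < W * P := mul_pos hW0 hP0
  refine le_of_mul_le_mul_right ?_ hWP
  calc ((bad D M h l J s0).card : ℝ) * θ ^ (s0 * J.card) * (W * P)
      = ((bad D M h l J s0).card : ℝ) * (θ ^ (s0 * J.card) * W) * P := by ring
    _ ≤ Q := hbad
    _ ≤ Q * ((K11 * ex * K12 * K21 * K22) * F * (W * P)) := le_mul_of_one_le_right hQ0 hone
    _ = _ := by ring

/-- the first row event -/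
def ev (D M : Type*) [Fintype D] [DecidableEq D] [Fintype M] [DecidableEq M] (h l : ℕ) (s0 : ℕ)
    (i : D) : Finset (D ⊕ M → D ⊕ M → ℕ) :=
  (Full D M h l).filter (fun X => s0 ≤ ∑ k : M, X (Sum.inl i) (Sum.inr k))

lemma ev_card {h l s0 : ℕ} (i i' : D) : (ev D M h l s0 i).card = (ev D M h l s0 i').card := by
  classical
  obtain ⟨σ, hσ⟩ : ∃ σ : D ⊕ M ≃ D ⊕ M, σ = Equiv.sumCongr (Equiv.swap i i') (Equiv.refl M) :=
    ⟨_, rfl⟩
  have s1 : ∀ x, σ (Sum.inl x) = Sum.inl (Equiv.swap i i' x) := by intro x; rw [hσ]; rfl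
  have s2 : ∀ x, σ (Sum.inr x) = Sum.inr x := by intro x; rw [hσ]; rfl
  have hinv : ∀ x, σ (σ x) = x := by
    intro x
    rcases x with x | x
    · rw [s1, s1, Equiv.swap_apply_self]
    · rw [s2, s2]
  have hmarg : ∀ x, marg h l (σ x) = marg h l x := by
    intro x
    rcases x with x | x
    · rw [s1]; rfl
    · rw [s2]
  have key : ∀ (a a' : D), (Equiv.swap i i' a = a') → ∀ X ∈ ev D M h l s0 a',
      (fun x y => X (σ x) y) ∈ ev D M h l s0 a := by
    intro a a' haa X hX
    unfold ev at hX ⊢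
    rw [mem_filter, mem_Full] at hX ⊢
    refine ⟨⟨fun x => ?_, fun y => ?_⟩, ?_⟩
    · rw [hX.1.1, hmarg]
    · rw [← hX.1.2 y]
      exact Equiv.sum_comp σ (fun x => X x y)
    · simp only [s1, haa]; exact hX.2
  apply Finset.card_bij (fun X _ => fun x y => X (σ x) y)
  · intro X hX
    exact key i' i (Equiv.swap_apply_right i i') X hX
  · intro X _ Y _ hXY
    funext x y
    have := congrFun (congrFun hXY (σ x)) y
    simp only [hinv] at this
    exact this
  · intro Y hY
    refine ⟨fun x y => Y (σ x) y, key i i' (Equiv.swap_apply_left i i') Y hY, ?_⟩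
    funext x y
    exact congrFun (congrArg Y (hinv x)) y

/-- union bound and exchangeability -/
lemma union_bd {h l s0 : ℕ} (i : D) {η ε : ℝ} (hη : 0 < η) (hε1 : 0 ≤ ε)
    (hbad : ∀ J : Finset D, η * Fintype.card D ≤ J.card →
      ((bad D M h l J s0).card : ℝ) ≤ ε * (Full D M h l).card) :
    ((ev D M h l s0 i).card : ℝ) ≤ (η + 2 ^ Fintype.card D * ε) * (Full D M h l).card := by
  classical
  have hd : 0 < (Fintype.card D : ℝ) := by
    have : 0 < Fintype.card D := Fintype.card_pos_iff.2 ⟨i⟩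
    exact_mod_cast this
  have hε : 0 ≤ ε * (Full D M h l).card := mul_nonneg hε1 (Nat.cast_nonneg _)
  obtain ⟨Hi, hHi⟩ : ∃ Hi : (D ⊕ M → D ⊕ M → ℕ) → Finset D,
      Hi = fun X => univ.filter (fun i => s0 ≤ ∑ k : M, X (Sum.inl i) (Sum.inr k)) := ⟨_, rfl⟩
  obtain ⟨B, hB⟩ : ∃ B, B = (Full D M h l).filter
      (fun X => η * Fintype.card D ≤ (Hi X).card) := ⟨_, rfl⟩
  -- count of `B`
  have hBcard : (B.card : ℝ) ≤ 2 ^ Fintype.card D * (ε * (Full D M h l).card) := by
    have hsub : B ⊆ ((univ : Finset (Finset D)).filter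
        (fun J => η * Fintype.card D ≤ (J.card : ℝ))).biUnion (fun J => bad D M h l J s0) := by
      intro X hX
      rw [hB, mem_filter] at hX
      rw [mem_biUnion]
      refine ⟨Hi X, by rw [mem_filter]; exact ⟨mem_univ _, hX.2⟩, ?_⟩
      unfold bad
      rw [mem_filter]
      refine ⟨hX.1, fun i hi => ?_⟩
      rw [hHi, mem_filter] at hi
      exact hi.2
    calc (B.card : ℝ) ≤ ((((univ : Finset (Finset D)).filter
        (fun J => η * Fintype.card D ≤ (J.card : ℝ))).biUnion
          (fun J => bad D M h l J s0)).card : ℝ) := by exact_mod_cast card_le_card hsub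
      _ ≤ ((∑ J ∈ (univ : Finset (Finset D)).filter
        (fun J => η * Fintype.card D ≤ (J.card : ℝ)), (bad D M h l J s0).card : ℕ) : ℝ) := by
          exact_mod_cast Finset.card_biUnion_le
      _ = ∑ J ∈ (univ : Finset (Finset D)).filter
        (fun J => η * Fintype.card D ≤ (J.card : ℝ)), ((bad D M h l J s0).card : ℝ) := by
          push_cast; rfl
      _ ≤ ∑ _J ∈ (univ : Finset (Finset D)).filter
        (fun J => η * Fintype.card D ≤ (J.card : ℝ)), ε * (Full D M h l).card := by
          apply Finset.sum_le_sum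
          intro J hJ
          rw [mem_filter] at hJ
          exact hbad J hJ.2
      _ = (((univ : Finset (Finset D)).filter
        (fun J => η * Fintype.card D ≤ (J.card : ℝ))).card : ℝ) * (ε * (Full D M h l).card) := by
          rw [Finset.sum_const, nsmul_eq_mul]
      _ ≤ 2 ^ Fintype.card D * (ε * (Full D M h l).card) := by
          apply mul_le_mul_of_nonneg_right _ hε
          have h1 : ((univ : Finset (Finset D)).filter
            (fun J => η * Fintype.card D ≤ (J.card : ℝ))).card ≤ 2 ^ Fintype.card D := by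
            refine (Finset.card_filter_le _ _).trans ?_
            rw [Finset.card_univ, Fintype.card_finset]
          exact_mod_cast h1
  -- double counting
  have hdc : (Fintype.card D : ℝ) * (ev D M h l s0 i).card ≤
      η * Fintype.card D * (Full D M h l).card + Fintype.card D * B.card := by
    have e1 : (Fintype.card D : ℝ) * (ev D M h l s0 i).card =
        ∑ j : D, ((ev D M h l s0 j).card : ℝ) := by
      rw [Finset.sum_congr rfl (fun j _ => by rw [ev_card j i]), Finset.sum_const,
        Finset.card_univ, nsmul_eq_mul]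
    have e2 : ∑ j : D, ((ev D M h l s0 j).card : ℝ) =
        ∑ X ∈ Full D M h l, ((Hi X).card : ℝ) := by
      have : ∀ j : D, ((ev D M h l s0 j).card : ℝ) = ∑ X ∈ Full D M h l,
          if s0 ≤ ∑ k : M, X (Sum.inl j) (Sum.inr k) then (1 : ℝ) else 0 := by
        intro j
        unfold ev
        rw [Finset.card_filter]
        push_cast
        rfl
      simp only [this]
      rw [Finset.sum_comm]
      apply Finset.sum_congr rfl
      intro X _
      rw [hHi, Finset.card_filter]
      push_cast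
      rfl
    rw [e1, e2]
    have e3 : ∀ X ∈ Full D M h l, ((Hi X).card : ℝ) ≤
        η * Fintype.card D + if X ∈ B then (Fintype.card D : ℝ) else 0 := by
      intro X hX
      have hle : ((Hi X).card : ℝ) ≤ Fintype.card D := by
        exact_mod_cast Finset.card_le_univ _
      by_cases hXB : X ∈ B
      · rw [if_pos hXB]
        nlinarith
      · rw [if_neg hXB]
        rw [hB, mem_filter] at hXB
        push Not at hXB
        linarith [hXB hX]
    calc ∑ X ∈ Full D M h l, ((Hi X).card : ℝ)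
        ≤ ∑ X ∈ Full D M h l, (η * Fintype.card D + if X ∈ B then (Fintype.card D : ℝ) else 0) :=
          Finset.sum_le_sum e3
      _ = η * Fintype.card D * (Full D M h l).card + Fintype.card D * B.card := by
          rw [Finset.sum_add_distrib, Finset.sum_const, nsmul_eq_mul, ← Finset.sum_filter]
          have : (Full D M h l).filter (fun X => X ∈ B) = B := by
            ext X
            rw [mem_filter]
            constructor
            · exact fun h => h.2
            · intro h
              refine ⟨?_, h⟩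
              rw [hB, mem_filter] at h
              exact h.1
          rw [this, Finset.sum_const, nsmul_eq_mul]
          ring
  have h3 : (Fintype.card D : ℝ) * (ev D M h l s0 i).card ≤
      Fintype.card D * ((η + 2 ^ Fintype.card D * ε) * (Full D M h l).card) := by
    calc (Fintype.card D : ℝ) * (ev D M h l s0 i).card ≤
        η * Fintype.card D * (Full D M h l).card + Fintype.card D * B.card := hdc
      _ ≤ η * Fintype.card D * (Full D M h l).card +
          Fintype.card D * (2 ^ Fintype.card D * (ε * (Full D M h l).card)) := by gcongr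
      _ = _ := by ring
  exact le_of_mul_le_mul_left h3 hd

end Pool.Agent.Q296.CT
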