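import Mathlib

/-! Products of intervals are unimodal; balanced margins maximise the number of tables. -/

set_option autoImplicit false
set_option linter.unusedSectionVars false
set_option linter.deprecated false

namespace Pool.Agent.Q296.CT

open Finset

/-- symmetric and unimodal -/
def Su (P : ℤ → ℕ) (D : ℤ) : Prop := (∀ s, P (D - s) = P s) ∧ ∀ s, 2 * s + 1 ≤ D → P s ≤ P (s + 1)

lemma Su.mono {P : ℤ → ℕ} {D : ℤ} (h : Su P D) {s s' : ℤ} (h1 : s ≤ s') (h2 : s + s' ≤ D) :
    P s ≤ P s' := by
  have key : ∀ t, s ≤ t → 2 * t ≤ D + 1 → P s ≤ P t := by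
    intro t ht
    induction t, ht using Int.le_induction with
    | base => intro _; exact le_refl _
    | succ t ht ih =>
      intro h3
      exact (ih (by omega)).trans (h.2 t (by omega))
  rcases le_or_gt (2 * s') (D + 1) with h3 | h3
  · exact key s' h1 h3
  · rw [← h.1 s']
    exact key (D - s') (by omega) (by omega)

lemma Su.conv {P : ℤ → ℕ} {D : ℤ} (h : Su P D) (c : ℕ) :
    Su (fun s => ∑ i ∈ range (c + 1), P (s - i)) (D + c) := by
  refine ⟨fun s => ?_, fun s hs => ?_⟩
  · simp only
    rw [← Finset.sum_range_reflect]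
    apply Finset.sum_congr rfl
    intro i hi
    rw [mem_range] at hi
    rw [← h.1 (s - i)]
    congr 1
    have : ((c + 1 - 1 - i : ℕ) : ℤ) = c - i := by omega
    rw [this]; ring
  · simp only
    rw [Finset.sum_range_succ, Finset.sum_range_succ']
    apply Nat.add_le_add
    · apply Finset.sum_le_sum
      intro i _
      have : s + 1 - ((i + 1 : ℕ) : ℤ) = s - i := by push_cast; ring
      rw [this]
    · apply h.mono
      · omega
      · push_cast; omega

/-- number of `f ≤ c` with sum `s` -/
def cnt {K : Type*} [Fintype K] [DecidableEq K] (c : K → ℕ) (s : ℤ) : ℕ :=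
  ((Fintype.piFinset (fun j => range (c j + 1))).filter
    (fun f => ((∑ j, f j : ℕ) : ℤ) = s)).card

lemma cnt_succ {q : ℕ} (c : Fin (q + 1) → ℕ) (s : ℤ) :
    cnt c s = ∑ i ∈ range (c 0 + 1), cnt (fun j : Fin q => c j.succ) (s - i) := by
  classical
  unfold cnt
  rw [Finset.card_eq_sum_card_fiberwise (f := fun f => f 0) (t := range (c 0 + 1))]
  · apply Finset.sum_congr rfl
    intro i hi
    apply Finset.card_bij (fun f _ => fun j => f j.succ)
    · intro f hf
      simp only [mem_filter, Fintype.mem_piFinset] at hf ⊢
      refine ⟨fun j => hf.1.1 j.succ, ?_⟩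
      have h1 := hf.1.2
      rw [Fin.sum_univ_succ, hf.2] at h1
      push_cast at h1 ⊢
      omega
    · intro f hf g hg h
      simp only [mem_filter] at hf hg
      funext j
      refine Fin.cases ?_ (fun j => ?_) j
      · rw [hf.2, hg.2]
      · exact congrFun h j
    · intro g hg
      simp only [mem_filter, Fintype.mem_piFinset] at hg
      refine ⟨Fin.cons i g, ?_, ?_⟩
      · simp only [mem_filter, Fintype.mem_piFinset]
        refine ⟨⟨fun j => ?_, ?_⟩, rfl⟩
        · refine Fin.cases ?_ (fun j => ?_) j
          · exact hi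
          · exact hg.1 j
        · rw [Fin.sum_univ_succ]
          simp only [Fin.cons_zero, Fin.cons_succ]
          have := hg.2
          push_cast at this ⊢
          omega
      · funext j; simp
  · intro f hf
    simp only [coe_filter, Fintype.mem_piFinset, Set.mem_setOf_eq] at hf
    exact hf.1 0

lemma cnt_su_fin {q : ℕ} (c : Fin q → ℕ) : Su (cnt c) ((∑ j, c j : ℕ) : ℤ) := by
  induction q with
  | zero =>
    have h0 : ∀ s : ℤ, cnt c s = if s = 0 then 1 else 0 := by
      intro s
      unfold cnt
      split_ifs with h
      · rw [Finset.card_eq_one]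
        refine ⟨fun j => j.elim0, ?_⟩
        ext f
        simp only [mem_filter, Fintype.mem_piFinset, mem_singleton]
        constructor
        · intro _; funext j; exact j.elim0
        · intro _
          exact ⟨fun j => j.elim0, by rw [h]; simp⟩
      · rw [Finset.card_eq_zero, Finset.filter_eq_empty_iff]
        intro f _ h'
        apply h
        rw [← h']; simp
    refine ⟨fun s => ?_, fun s hs => ?_⟩
    · rw [h0, h0]; simp
    · rw [h0, h0]
      simp at hs
      rw [if_neg (by omega)]
      exact Nat.zero_le _
  | succ q ih =>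
    have h1 := (ih (fun j : Fin q => c j.succ)).conv (c 0)
    have h2 : cnt c = fun s => ∑ i ∈ range (c 0 + 1), cnt (fun j : Fin q => c j.succ) (s - i) := by
      funext s; exact cnt_succ c s
    rw [h2, Fin.sum_univ_succ]
    have h3 : ((c 0 + ∑ i : Fin q, c i.succ : ℕ) : ℤ)
        = ((∑ j : Fin q, c j.succ : ℕ) : ℤ) + (c 0 : ℤ) := by push_cast; ring
    rw [h3]; exact h1

lemma cnt_su {K : Type*} [Fintype K] [DecidableEq K] (c : K → ℕ) :
    Su (cnt c) ((∑ j, c j : ℕ) : ℤ) := by
  classical
  obtain ⟨e⟩ : Nonempty (Fin (Fintype.card K) ≃ K) := ⟨(Fintype.equivFin K).symm⟩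
  have h1 : cnt c = cnt (c ∘ e) := by
    funext s
    unfold cnt
    apply Finset.card_bij (fun f _ => f ∘ e)
    · intro f hf
      simp only [mem_filter, Fintype.mem_piFinset] at hf ⊢
      refine ⟨fun j => hf.1 (e j), ?_⟩
      rw [← hf.2]
      congr 1
      exact Equiv.sum_comp e f
    · intro f _ g _ h
      funext j
      have := congrFun h (e.symm j)
      simpa using this
    · intro g hg
      simp only [mem_filter, Fintype.mem_piFinset] at hg
      refine ⟨g ∘ e.symm, ?_, ?_⟩
      · simp only [mem_filter, Fintype.mem_piFinset]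
        refine ⟨fun j => ?_, ?_⟩
        · have := hg.1 (e.symm j)
          simpa using this
        · rw [← hg.2]
          congr 1
          exact Equiv.sum_comp e.symm g
      · funext j; simp
  rw [h1, ← Equiv.sum_comp e c]
  exact cnt_su_fin (c ∘ e)

/-- tables with given margins -/
def tab {R K : Type*} [Fintype R] [DecidableEq R] [Fintype K] [DecidableEq K] (r : R → ℕ)
    (c : K → ℕ) : Finset (R → K → ℕ) :=
  (Fintype.piFinset (fun i => Fintype.piFinset (fun _ : K => range (r i + 1)))).filter
    (fun X => (∀ i, ∑ k, X i k = r i) ∧ ∀ k, ∑ i, X i k = c k)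

variable {R K : Type*} [Fintype R] [DecidableEq R] [Fintype K] [DecidableEq K]

lemma mem_tab {r : R → ℕ} {c : K → ℕ} {X : R → K → ℕ} :
    X ∈ tab r c ↔ (∀ i, ∑ k, X i k = r i) ∧ ∀ k, ∑ i, X i k = c k := by
  unfold tab
  rw [mem_filter, Fintype.mem_piFinset]
  constructor
  · exact fun h => h.2
  · intro h
    refine ⟨fun i => ?_, h⟩
    rw [Fintype.mem_piFinset]
    intro k
    rw [mem_range, Nat.lt_succ_iff, ← h.1 i]
    exact Finset.single_le_sum (fun _ _ => Nat.zero_le _) (mem_univ k)

/-- merge row `j` into row `i` -/
def mg (X : R → K → ℕ) (i j : R) : R → K → ℕ :=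
  Function.update (Function.update X i (fun k => X i k + X j k)) j (fun _ => 0)

lemma mg_i {X : R → K → ℕ} {i j : R} (h : i ≠ j) (k : K) : mg X i j i k = X i k + X j k := by
  unfold mg; rw [Function.update_of_ne h, Function.update_self]

lemma mg_j {X : R → K → ℕ} {i j : R} (k : K) : mg X i j j k = 0 := by
  unfold mg; rw [Function.update_self]

lemma mg_o {X : R → K → ℕ} {i j l : R} (h1 : l ≠ i) (h2 : l ≠ j) : mg X i j l = X l := by
  unfold mg; rw [Function.update_of_ne h2, Function.update_of_ne h1]

lemma sum_two {i j : R} (h : i ≠ j) (f : R → ℕ) :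
    ∑ l, f l = f i + f j + ∑ l ∈ (univ.erase i).erase j, f l := by
  rw [← Finset.add_sum_erase univ f (mem_univ i),
    ← Finset.add_sum_erase (univ.erase i) f (mem_erase.2 ⟨h.symm, mem_univ j⟩)]
  ring

/-- the margins after merging -/
def mr (r : R → ℕ) (i j : R) : R → ℕ := Function.update (Function.update r i (r i + r j)) j 0

lemma mg_mem {r : R → ℕ} {c : K → ℕ} {X : R → K → ℕ} {i j : R} (h : i ≠ j) (hX : X ∈ tab r c) :
    mg X i j ∈ tab (mr r i j) c := by
  rw [mem_tab] at hX ⊢
  refine ⟨fun l => ?_, fun k => ?_⟩
  · unfold mr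
    by_cases h2 : l = j
    · subst h2
      rw [Function.update_self]
      simp only [mg_j, Finset.sum_const_zero]
    · rw [Function.update_of_ne h2]
      by_cases h1 : l = i
      · subst h1
        rw [Function.update_self]
        simp only [mg_i h, Finset.sum_add_distrib, hX.1]
      · rw [Function.update_of_ne h1, mg_o h1 h2]; exact hX.1 l
  · rw [← hX.2 k, sum_two h, sum_two h (fun l => X l k), mg_i h, mg_j]
    have : ∑ l ∈ (univ.erase i).erase j, mg X i j l k = ∑ l ∈ (univ.erase i).erase j, X l k := by
      apply Finset.sum_congr rfl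
      intro l hl
      rw [mem_erase, mem_erase] at hl
      rw [mg_o hl.2.1 hl.1]
    rw [this]; ring

/-- the fibre of the merging map -/
lemma card_fibre {r : R → ℕ} {c : K → ℕ} {i j : R} (h : i ≠ j) {Y : R → K → ℕ}
    (hY : Y ∈ tab (mr r i j) c) :
    ((tab r c).filter (fun X => mg X i j = Y)).card = cnt (Y i) (r j : ℤ) := by
  classical
  unfold cnt
  have hYj : ∀ k, Y j k = 0 := by
    intro k
    have := (mem_tab.1 hY).1 j
    unfold mr at this
    rw [Function.update_self] at this
    exact (Finset.sum_eq_zero_iff.1 this) k (mem_univ k)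
  have hYi : ∑ k, Y i k = r i + r j := by
    have := (mem_tab.1 hY).1 i
    unfold mr at this
    rw [Function.update_of_ne h, Function.update_self] at this
    exact this
  apply Finset.card_bij (fun X _ => X j)
  · intro X hX
    rw [mem_filter, mem_tab] at hX
    rw [mem_filter, Fintype.mem_piFinset]
    refine ⟨fun k => ?_, ?_⟩
    · rw [mem_range, Nat.lt_succ_iff, ← hX.2, mg_i h]
      exact Nat.le_add_left _ _
    · rw [hX.1.1 j]
  · intro X hX X' hX' he
    rw [mem_filter] at hX hX'
    funext l
    by_cases h2 : l = j
    · rw [h2]; exact he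
    · by_cases h1 : l = i
      · rw [h1]
        funext k
        have e1 := congrFun (congrFun hX.2 i) k
        have e2 := congrFun (congrFun hX'.2 i) k
        rw [mg_i h] at e1 e2
        have e3 := congrFun he k
        omega
      · rw [← mg_o (X := X) h1 h2, ← mg_o (X := X') h1 h2, hX.2, hX'.2]
  · intro f hf
    rw [mem_filter, Fintype.mem_piFinset] at hf
    have hfle : ∀ k, f k ≤ Y i k := by
      intro k
      have := hf.1 k
      rw [mem_range] at this
      omega
    have hfs : ∑ k, f k = r j := by exact_mod_cast hf.2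
    obtain ⟨X, hX⟩ : ∃ X : R → K → ℕ,
        X = Function.update (Function.update Y i (fun k => Y i k - f k)) j f := ⟨_, rfl⟩
    have x1 : ∀ k, X i k = Y i k - f k := by
      intro k; rw [hX, Function.update_of_ne h, Function.update_self]
    have x2 : X j = f := by rw [hX, Function.update_self]
    have x3 : ∀ l, l ≠ i → l ≠ j → X l = Y l := by
      intro l h1 h2; rw [hX, Function.update_of_ne h2, Function.update_of_ne h1]
    refine ⟨X, ?_, x2⟩
    rw [mem_filter, mem_tab]
    refine ⟨⟨fun l => ?_, fun k => ?_⟩, ?_⟩
    · by_cases h2 : l = j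
      · rw [h2, x2]; exact hfs
      · by_cases h1 : l = i
        · rw [h1]
          have : ∑ k, X i k + ∑ k, f k = ∑ k, Y i k := by
            rw [← Finset.sum_add_distrib]
            apply Finset.sum_congr rfl
            intro k _
            rw [x1]
            have := hfle k
            omega
          omega
        · rw [x3 l h1 h2]
          have := (mem_tab.1 hY).1 l
          unfold mr at this
          rw [Function.update_of_ne h2, Function.update_of_ne h1] at this
          exact this
    · rw [← (mem_tab.1 hY).2 k, sum_two h, sum_two h (fun l => Y l k), x1, x2, hYj]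
      have : ∑ l ∈ (univ.erase i).erase j, X l k = ∑ l ∈ (univ.erase i).erase j, Y l k := by
        apply Finset.sum_congr rfl
        intro l hl
        rw [mem_erase, mem_erase] at hl
        rw [x3 l hl.2.1 hl.1]
      rw [this]
      have := hfle k
      omega
    · funext l k
      by_cases h2 : l = j
      · rw [h2, mg_j, hYj]
      · by_cases h1 : l = i
        · rw [h1, mg_i h, x1, x2]
          have := hfle k
          omega
        · rw [mg_o h1 h2, x3 l h1 h2]

/-- moving a unit from a larger row sum to a smaller one does not decrease the count -/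
lemma move_le {r : R → ℕ} (c : K → ℕ) {i j : R} (h : i ≠ j) (hlt : r j < r i) :
    (tab r c).card ≤ (tab (Function.update (Function.update r i (r i - 1)) j (r j + 1)) c).card := by
  classical
  obtain ⟨r', hr'⟩ : ∃ r', r' = Function.update (Function.update r i (r i - 1)) j (r j + 1) :=
    ⟨_, rfl⟩
  have r1 : r' i = r i - 1 := by rw [hr', Function.update_of_ne h, Function.update_self]
  have r2 : r' j = r j + 1 := by rw [hr', Function.update_self]
  have r3 : ∀ l, l ≠ i → l ≠ j → r' l = r l := by
    intro l h1 h2; rw [hr', Function.update_of_ne h2, Function.update_of_ne h1]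
  have hmr : mr r' i j = mr r i j := by
    funext l
    unfold mr
    by_cases h2 : l = j
    · rw [h2, Function.update_self, Function.update_self]
    · rw [Function.update_of_ne h2, Function.update_of_ne h2]
      by_cases h1 : l = i
      · rw [h1, Function.update_self, Function.update_self, r1, r2]; omega
      · rw [Function.update_of_ne h1, Function.update_of_ne h1, r3 l h1 h2]
  rw [← hr']
  rw [Finset.card_eq_sum_card_fiberwise (s := tab r c) (f := fun X => mg X i j)
      (t := tab (mr r i j) c) (fun X hX => mg_mem h hX),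
    Finset.card_eq_sum_card_fiberwise (s := tab r' c) (f := fun X => mg X i j)
      (t := tab (mr r i j) c) (fun X hX => by
        have := mg_mem h hX
        rw [hmr] at this
        exact this)]
  apply Finset.sum_le_sum
  intro Y hY
  rw [card_fibre h hY, card_fibre h (hmr ▸ hY), r2]
  have hYi : ∑ k, Y i k = r i + r j := by
    have := (mem_tab.1 hY).1 i
    unfold mr at this
    rw [Function.update_of_ne h, Function.update_self] at this
    exact this
  apply (cnt_su (Y i)).mono
  · push_cast; omega
  · rw [hYi]; push_cast; omega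

/-- balanced row sums maximise -/
lemma row_bal (c : K → ℕ) (a : ℕ) : ∀ (m : ℕ) (r : R → ℕ), ∑ i, ((r i - a) + (a - r i)) = m →
    ∑ i, r i = Fintype.card R * a → (tab r c).card ≤ (tab (fun _ : R => a) c).card := by
  classical
  intro m
  induction m using Nat.strong_induction_on with
  | _ m ih =>
  intro r hm hr
  by_cases hc : ∀ i, r i = a
  · have : r = fun _ => a := funext hc
    rw [this]
  · push Not at hc
    have hsum : ∑ i, r i = ∑ _i : R, a := by
      rw [hr, Finset.sum_const, Finset.card_univ, smul_eq_mul]
    obtain ⟨i, hi⟩ : ∃ i, a < r i := by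
      by_contra hno
      push Not at hno
      have := (Finset.sum_eq_sum_iff_of_le (fun i _ => hno i)).1 hsum
      obtain ⟨l, hl⟩ := hc
      exact hl (this l (mem_univ l))
    obtain ⟨j, hj⟩ : ∃ j, r j < a := by
      by_contra hno
      push Not at hno
      have := (Finset.sum_eq_sum_iff_of_le (fun i _ => hno i)).1 hsum.symm
      obtain ⟨l, hl⟩ := hc
      exact hl (this l (mem_univ l)).symm
    have hij : i ≠ j := by rintro rfl; omega
    refine (move_le c hij (by omega)).trans ?_
    obtain ⟨r', hr'⟩ : ∃ r', r' = Function.update (Function.update r i (r i - 1)) j (r j + 1) :=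
      ⟨_, rfl⟩
    have r1 : r' i = r i - 1 := by rw [hr', Function.update_of_ne hij, Function.update_self]
    have r2 : r' j = r j + 1 := by rw [hr', Function.update_self]
    have r3 : ∀ l, l ≠ i → l ≠ j → r' l = r l := by
      intro l h1 h2; rw [hr', Function.update_of_ne h2, Function.update_of_ne h1]
    rw [← hr']
    have hrest : ∀ F : ℕ → ℕ, ∑ l ∈ (univ.erase i).erase j, F (r' l)
        = ∑ l ∈ (univ.erase i).erase j, F (r l) := by
      intro F
      apply Finset.sum_congr rfl
      intro l hl
      rw [mem_erase, mem_erase] at hl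
      rw [r3 l hl.2.1 hl.1]
    have e1 := sum_two hij (fun l => (r l - a) + (a - r l))
    have e2 := sum_two hij (fun l => (r' l - a) + (a - r' l))
    have e3 := hrest (fun x => (x - a) + (a - x))
    have e4 := sum_two hij (fun l => r l)
    have e5 := sum_two hij (fun l => r' l)
    have e6 := hrest (fun x => x)
    rw [r1, r2] at e2 e5
    refine ih (∑ l, ((r' l - a) + (a - r' l))) (by omega) r' rfl (by omega)

lemma tab_swap (r : R → ℕ) (c : K → ℕ) : (tab r c).card = (tab c r).card := by
  apply Finset.card_bij (fun X _ => fun k i => X i k)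
  · intro X hX
    rw [mem_tab] at hX ⊢
    exact ⟨hX.2, hX.1⟩
  · intro X _ Y _ h
    funext i k
    exact congrFun (congrFun h k) i
  · intro Y hY
    rw [mem_tab] at hY
    exact ⟨fun i k => Y k i, by rw [mem_tab]; exact ⟨hY.2, hY.1⟩, rfl⟩

/-- balanced margins maximise -/
lemma bal_max (r : R → ℕ) (c : K → ℕ) (a b : ℕ) (hr : ∑ i, r i = Fintype.card R * a)
    (hc : ∑ k, c k = Fintype.card K * b) :
    (tab r c).card ≤ (tab (fun _ : R => a) (fun _ : K => b)).card := by
  refine (row_bal c a _ r rfl hr).trans ?_
  rw [tab_swap, tab_swap (fun _ : R => a)]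
  exact row_bal _ b _ c rfl hc

end Pool.Agent.Q296.CT
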